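import Pool.Agent.W574.MO.Defs
import Pool.Agent.W574.MO.FormDefs

set_option autoImplicit false

/-! # Sums and products of ideals in disjoint sets of variables

`M` is a commutative ring with a unit `L`. The main example is `M = K₀(Var_ℂ)[1/L]`, the
Grothendieck ring of complex varieties, localized at the class `L` of the affine line.

The motivic zeta function of an ideal `I` of the polynomial ring in `n` variables is
`∫ T^(ord I) dμ = ∑_e μ(ord I = e) T^e`, where `μ(ord I = e)` is the motivic volume of the set of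
the arcs `φ` of the affine space with `ord φ^* I = e`. The volume is normalized such that the set
of all arcs has the volume `1`. -/

namespace Pool.Agent.W574.RO

open MvPolynomial Pool.Agent.W574.SM Pool.Agent.W574.MO

variable {M : Type} [CommRing M]

/-- `Z` is (of the form of) the motivic zeta function `∫ T^(ord I) dμ` of the ideal `I = (f_j)` of
`ℂ[x₁, x₂]`, computed by blowing up points:
`Z = L⁻² (u₀ + ∑_i w_i (L - 1) L⁻¹ T^(m_i) / (1 - L⁻¹ T^(m_i)) + ∑_{P ∈ S} Z_P)`, where the `m_i`
are the multiplicities of curves `C_i` in the zero locus `Y` of the ideal, `Z_P` is the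
contribution of the point `P`, computed by a sequence of blow-ups of points, see `MotLocal`, and
`u₀`, `w_i` are elements of `M` with `u₀ + ∑_i w_i + |S| = L²`.

Take for the `C_i` all the irreducible curves in `Y`, for `S` a finite set of points of `Y` which
contains the isolated points of `Y`, the singular points of the union of the curves and the points
at which the ideal is not a power of the ideal of this union, `u₀ = [ℂ² ∖ Y]` and
`w_i = [C_i ∖ S]`; then `u₀ + ∑_i w_i + |S| = [ℂ²] = L²`. -/
def PlaneVol {ι : Type} (L : Mˣ) (f : ι → MvPolynomial (Fin 2) ℂ) (Z : PowerSeries M) : Prop :=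
  ∃ (u₀ : M) (r : ℕ) (h : Fin r → MvPolynomial (Fin 2) ℂ) (m : Fin r → ℕ) (w : Fin r → M)
    (S : Finset (Fin 2 → ℂ)) (ZP : (Fin 2 → ℂ) → PowerSeries M),
    (∀ i, IsCurve f (h i) (m i)) ∧
    (∀ P ∈ S, MotLocal L (fun j => translate P (f j)) 0 1 0 1 (ZP P)) ∧
    u₀ + ∑ i, w i + (S.card : M) = (L : M) ^ 2 ∧
    Z = PowerSeries.C ((L⁻¹ ^ 2 : Mˣ) : M) * (PowerSeries.C u₀ +
      ∑ i, PowerSeries.C (w i) * mf L (m i) 1 + ∑ P ∈ S, ZP P)

/-- The series `∑ μ(ord (I + J) = e) T^e` for ideals `I`, `J` in disjoint sets of variables with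
the series `Z = ∑ μ(ord I = e) T^e = ∑ z_e T^e` and `W = ∑ μ(ord J = e) T^e = ∑ w_e T^e`. Since
`ord (I + J) = min (ord I, ord J)`, the volume of `ord (I + J) ≥ e` is the product of the volumes
`1 - ∑_{k < e} z_k` of `ord I ≥ e` and `1 - ∑_{k < e} w_k` of `ord J ≥ e`. -/
noncomputable def sumSeries (Z W : PowerSeries M) : PowerSeries M := PowerSeries.mk fun e =>
  (1 - ∑ k ∈ Finset.range e, PowerSeries.coeff k Z) *
      (1 - ∑ k ∈ Finset.range e, PowerSeries.coeff k W) -
    (1 - ∑ k ∈ Finset.range (e + 1), PowerSeries.coeff k Z) *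
      (1 - ∑ k ∈ Finset.range (e + 1), PowerSeries.coeff k W)

/-- A finite family of polynomials in the variables indexed by `σ`: generators of an ideal. -/
structure Fam where
  /-- the variables -/
  σ : Type
  /-- the generators -/
  ι : Type
  [fin : Fintype ι]
  /-- the polynomials -/
  f : ι → MvPolynomial σ ℂ

attribute [instance] Fam.fin

/-- The generators `f_j(x)`, `g_k(y)` of the sum `I + J` of the ideals `I = (f_j)` and `J = (g_k)`
in disjoint sets of variables. -/
noncomputable def Fam.sum (A B : Fam) : Fam :=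
  ⟨A.σ ⊕ B.σ, A.ι ⊕ B.ι,
    Sum.elim (fun j => rename Sum.inl (A.f j)) (fun k => rename Sum.inr (B.f k))⟩

/-- The generators `f_j(x) g_k(y)` of the product `I J` of the ideals `I = (f_j)` and `J = (g_k)`
in disjoint sets of variables. -/
noncomputable def Fam.mul (A B : Fam) : Fam :=
  ⟨A.σ ⊕ B.σ, A.ι × B.ι, fun p => rename Sum.inl (A.f p.1) * rename Sum.inr (B.f p.2)⟩

/-- `Built L A Z`: the ideal generated by the family `A` is obtained from ideals in two variables
and from powers of variables by sums and products in disjoint sets of variables, and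
`Z = ∫ T^(ord I) dμ` is its motivic zeta function. -/
inductive Built (L : Mˣ) : Fam → PowerSeries M → Prop
  /-- the ideal `(x ^ m)` of `ℂ[x]`: the volume of `ord x^m = m k` is `(1 - L⁻¹) L⁻ᵏ` -/
  | power (m : ℕ) (hm : 1 ≤ m) :
      Built L ⟨Fin 1, Fin 1, fun _ => X 0 ^ m⟩
        (PowerSeries.C (1 - ((L⁻¹ : Mˣ) : M)) * geo L m 1)
  /-- any non-zero ideal of `ℂ[x₁, x₂]` -/
  | plane (r : ℕ) (f : Fin r → MvPolynomial (Fin 2) ℂ) (hf : ∃ j, f j ≠ 0) (Z : PowerSeries M)
      (hZ : PlaneVol L f Z) : Built L ⟨Fin 2, Fin r, f⟩ Z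
  /-- the sum of two ideals in disjoint sets of variables -/
  | sum (A B : Fam) (Z W : PowerSeries M) (hA : Built L A Z) (hB : Built L B W) :
      Built L (A.sum B) (sumSeries Z W)
  /-- the product of two ideals in disjoint sets of variables: the orders are added -/
  | mul (A B : Fam) (Z W : PowerSeries M) (hA : Built L A Z) (hB : Built L B W) :
      Built L (A.mul B) (Z * W)

/-- `Z` is (of the form of) the series `∑_{d ≥ 0} [X_{d,1}] L^(-m d) T^d` of the polynomial
`F = ∑ y_j f_j(x)` in `m` variables, for a family `A = (f_j)` as in `Built`: `X_{d,1}` is the set of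
the `d`-jets `φ` with `F(φ) = t^d` modulo `t^(d + 1)`, and `m` is the number of the variables `x_i`
plus the number of the `y_j`. It is `Z = L^m Z' L⁻¹ / (1 - L⁻¹ T)`, where `Z' = ∫ T^(ord I) dμ` is
the motivic zeta function of the ideal `I = (f_j)`.

If `(x(t), y(t))` is an arc with `e = min_j ord f_j(x(t)) < ∞`, then `F = t^e ℓ(y(t))` with a linear
form `ℓ = ∑_j (t^(-e) f_j(x(t))) y_j`, one of whose coefficients is a unit; so for fixed `x(t)` the
integral of `T^(ord F)` over the `y(t)` for which the first coefficient of `F` is `1` is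
`T^e L⁻¹ / (1 - L⁻¹ T)`. -/
def FormJet (L : Mˣ) (A : Fam) (Z : PowerSeries M) : Prop :=
  ∃ Z' : PowerSeries M, Built L A Z' ∧
    Z = PowerSeries.C (((L ^ (Nat.card A.σ + Fintype.card A.ι) : Mˣ) : M) * ((L⁻¹ : Mˣ) : M)) *
      Z' * geo L 1 1

end Pool.Agent.W574.RO
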