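import Pool.Agent.W574.RO.Prod

set_option autoImplicit false
set_option linter.unusedSectionVars false

/-! # Renaming the variables and the generators -/

namespace Pool.Agent.W574.RO

open MvPolynomial Pool.Agent.W574.SM Pool.Agent.W574.HS

section

variable {σ σ' ι ι' : Type} [Fintype ι] [Fintype ι'] [DecidableEq ι] [DecidableEq ι']

theorem weyl_conj (e : σ ≃ σ') (Q : Module.End ℂ (MvPolynomial σ' ℂ)) (hQ : Q ∈ weyl σ') :
    ∃ R : weyl σ, ∀ p, (R : Module.End ℂ (MvPolynomial σ ℂ)) p =
      rename e.symm (Q (rename e p)) := by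
  classical
  have hre : ∀ p : MvPolynomial σ ℂ, rename e.symm (rename e p) = p := fun p => by
    rw [rename_rename]; simp
  have her : ∀ p : MvPolynomial σ' ℂ, rename e (rename e.symm p) = p := fun p => by
    rw [rename_rename]; simp
  induction hQ using Algebra.adjoin_induction with
  | mem Q h =>
    rcases h with ⟨i, rfl⟩ | ⟨i, rfl⟩
    · refine ⟨⟨_, Algebra.subset_adjoin (Or.inl ⟨e.symm i, rfl⟩)⟩, fun p => ?_⟩
      change X (e.symm i) * p = rename e.symm (X i * rename e p)
      rw [map_mul, hre, rename_X]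
    · refine ⟨⟨_, Algebra.subset_adjoin (Or.inr ⟨e.symm i, rfl⟩)⟩, fun p => ?_⟩
      change pderiv (e.symm i) p = rename e.symm (pderiv i (rename e p))
      have h1 := pderiv_rename e.injective (e.symm i) p
      rw [Equiv.apply_symm_apply] at h1
      rw [h1, hre]
  | algebraMap r =>
    refine ⟨algebraMap ℂ _ r, fun p => ?_⟩
    change r • p = rename e.symm (r • rename e p)
    rw [map_smul, hre]
  | add Q Q' _ _ h h' =>
    obtain ⟨R, hR⟩ := h
    obtain ⟨R', hR'⟩ := h'
    refine ⟨R + R', fun p => ?_⟩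
    change (R : Module.End ℂ (MvPolynomial σ ℂ)) p + (R' : Module.End ℂ (MvPolynomial σ ℂ)) p = _
    rw [hR, hR', LinearMap.add_apply, map_add]
  | mul Q Q' _ _ h h' =>
    obtain ⟨R, hR⟩ := h
    obtain ⟨R', hR'⟩ := h'
    refine ⟨R * R', fun p => ?_⟩
    change (R : Module.End ℂ (MvPolynomial σ ℂ)) ((R' : Module.End ℂ (MvPolynomial σ ℂ)) p) = _
    rw [hR, hR', her, Module.End.mul_apply]

/-- transport of a function -/
noncomputable def TR (e : σ ≃ σ') (k : ι ≃ ι') : AF σ' ι' →ₗ[ℂ] AF σ ι where
  toFun H := fun s => rename e.symm (H fun j => s (k.symm j))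
  map_add' H H' := by
    funext s
    rw [Pi.add_apply, map_add]
    rfl
  map_smul' a H := by
    funext s
    rw [Pi.smul_apply, map_smul]
    rfl

theorem TR_V (e : σ ≃ σ') (k : ι ≃ ι') (f : ι → MvPolynomial σ ℂ) (f' : ι' → MvPolynomial σ' ℂ)
    (h : ∀ j, f' (k j) = rename e (f j)) (a : ℤ) (H : AF σ' ι') (hH : H ∈ V f' a) :
    TR e k H ∈ V f a := by
  classical
  have hre : ∀ p : MvPolynomial σ ℂ, rename e.symm (rename e p) = p := fun p => by
    rw [rename_rename]; simp
  induction hH using Submodule.span_induction with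
  | mem H hH =>
    obtain ⟨P, c, hc, rfl⟩ := hH
    choose R hR using fun β : ι' →₀ ℕ => weyl_conj e (P β).1 (P β).2
    have key : TR e k (gen f' P c) = ∑ β ∈ P.support,
        gen f (Finsupp.single (Finsupp.equivFunOnFinite.symm fun j => β (k j)) (R β))
          (fun j => c (k j)) := by
      funext s
      have hg : gterm f' c (fun j => s (k.symm j)) = rename e (gterm f (fun j => c (k j)) s) := by
        have h1 : (∏ j, (if c j < 0 then (s (k.symm j)).choose (-c j).toNat else 1)) =
            ∏ j, (if c (k j) < 0 then (s j).choose (-c (k j)).toNat else 1) := by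
          rw [← k.prod_comp]
          refine Finset.prod_congr rfl fun j _ => ?_
          rw [Equiv.symm_apply_apply]
        have h2 : ∏ j, f' j ^ ((s (k.symm j) : ℤ) + c j).toNat =
            rename e (∏ j, f j ^ ((s j : ℤ) + c (k j)).toNat) := by
          rw [map_prod, ← k.prod_comp]
          refine Finset.prod_congr rfl fun j _ => ?_
          rw [Equiv.symm_apply_apply, h, map_pow]
        rw [gterm, gterm, h1, h2, map_mul, rename_C]
      change rename e.symm (applyAt P (fun j => s (k.symm j)) (gterm f' c _)) = _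
      rw [applyAt, Finsupp.sum, map_sum, Finset.sum_apply]
      refine Finset.sum_congr rfl fun β _ => ?_
      rw [gen, applyAt_single, hR, map_smul, hg]
      congr 1
      rw [← k.prod_comp]
      refine Finset.prod_congr rfl fun j _ => ?_
      rw [Equiv.symm_apply_apply]
      rfl
    rw [key]
    refine Submodule.sum_mem _ fun β _ => gen_mem f _ _ ?_
    rw [← hc]
    exact k.sum_comp c
  | zero => rw [map_zero]; exact Submodule.zero_mem _
  | add H H' _ _ h h' => rw [map_add]; exact Submodule.add_mem _ h h'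
  | smul r H _ h => rw [map_smul]; exact Submodule.smul_mem _ _ h

theorem functionalEq_equiv (e : σ ≃ σ') (k : ι ≃ ι') (f : ι → MvPolynomial σ ℂ)
    (f' : ι' → MvPolynomial σ' ℂ) (h : ∀ j, f' (k j) = rename e (f j)) (b : Polynomial ℂ)
    (hb : IsFunctionalEq f' b) : IsFunctionalEq f b := by
  rw [functionalEq_iff] at hb ⊢
  have h1 := TR_V e k f f' h 1 _ hb
  have h2 : TR e k (mulb b (G0 f')) = mulb b (G0 f) := by
    funext s
    change rename e.symm (C (b.eval ((∑ j, s (k.symm j) : ℕ) : ℂ)) * ∏ j, f' j ^ s (k.symm j)) = _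
    have hs : ∑ j, s (k.symm j) = ∑ j, s j := k.symm.sum_comp s
    have hp : ∏ j, f' j ^ s (k.symm j) = rename e (∏ j, f j ^ s j) := by
      rw [map_prod, ← k.prod_comp]
      refine Finset.prod_congr rfl fun j _ => ?_
      rw [Equiv.symm_apply_apply, h, map_pow]
    rw [hs, hp, map_mul, rename_C, rename_rename]
    simp only [Equiv.symm_comp_self, rename_id_apply]
    rfl
  rw [h2] at h1
  exact h1

end

section

variable {σ τ ι κ : Type} [Fintype ι] [Fintype κ] [DecidableEq ι] [DecidableEq κ]

theorem functionalEq_mul' (f : ι → MvPolynomial σ ℂ) (g : κ → MvPolynomial τ ℂ)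
    (hf : ∃ k, f k ≠ 0) (b : Polynomial ℂ) (hb : IsFunctionalEq (mulf f g) b) :
    IsFunctionalEq g b := by
  refine functionalEq_mul g f hf b (functionalEq_equiv (Equiv.sumComm τ σ) (Equiv.prodComm κ ι)
    (mulf g f) (mulf f g) (fun p => ?_) b hb)
  rw [mulf, mulf, map_mul, rename_rename, rename_rename, mul_comm]
  rfl

end

end Pool.Agent.W574.RO
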