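import Pool.Agent.W574.MO.Alg

set_option autoImplicit false
set_option linter.unusedSectionVars false
set_option linter.unusedVariables false

/-! # Coefficientwise products of power series with denominators `1 - L⁻ⁿ Tᵃ` -/

namespace Pool.Agent.W574.RO

open PowerSeries Pool.Agent.W574.MO

variable {M : Type} [CommRing M]

/-- almost all coefficients vanish -/
def IsPol (Z : M⟦X⟧) : Prop := ∃ N : ℕ, ∀ e, N ≤ e → coeff e Z = 0

theorem isPol_coe (P : Polynomial M) : IsPol (P : M⟦X⟧) :=
  ⟨P.natDegree + 1, fun e he => by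
    rw [Polynomial.coeff_coe]
    exact Polynomial.coeff_eq_zero_of_natDegree_lt (by omega)⟩

theorem exists_coe {Z : M⟦X⟧} (h : IsPol Z) : ∃ P : Polynomial M, Z = P := by
  obtain ⟨N, hN⟩ := h
  refine ⟨trunc N Z, ?_⟩
  ext e
  rw [Polynomial.coeff_coe, coeff_trunc]
  split_ifs with h
  · rfl
  · exact hN e (by omega)

theorem IsPol.add {Z W : M⟦X⟧} (hZ : IsPol Z) (hW : IsPol W) : IsPol (Z + W) := by
  obtain ⟨N, hN⟩ := hZ
  obtain ⟨N', hN'⟩ := hW
  exact ⟨max N N', fun e he => by
    rw [map_add, hN e ((le_max_left _ _).trans he), hN' e ((le_max_right _ _).trans he), add_zero]⟩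

theorem IsPol.mul {Z W : M⟦X⟧} (hZ : IsPol Z) (hW : IsPol W) : IsPol (Z * W) := by
  obtain ⟨P, rfl⟩ := exists_coe hZ
  obtain ⟨Q, rfl⟩ := exists_coe hW
  rw [← Polynomial.coe_mul]
  exact isPol_coe _

theorem isPol_C (m : M) : IsPol (C m : M⟦X⟧) := by
  have := isPol_coe (Polynomial.C m)
  rwa [Polynomial.coe_C] at this

theorem isPol_X : IsPol (X : M⟦X⟧) := by
  have := isPol_coe (Polynomial.X : Polynomial M)
  rwa [Polynomial.coe_X] at this

theorem isPol_one : IsPol (1 : M⟦X⟧) := by
  have := isPol_C (1 : M)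
  rwa [map_one] at this

theorem IsPol.pow {Z : M⟦X⟧} (hZ : IsPol Z) (n : ℕ) : IsPol (Z ^ n) := by
  induction n with
  | zero => rw [pow_zero]; exact isPol_one
  | succ n ih => rw [pow_succ]; exact ih.mul hZ

/-- the coefficientwise product -/
noncomputable def had (Z W : M⟦X⟧) : M⟦X⟧ := PowerSeries.mk fun e => coeff e Z * coeff e W

theorem coeff_had (Z W : M⟦X⟧) (e : ℕ) : coeff e (had Z W) = coeff e Z * coeff e W :=
  coeff_mk _ _

/-- `1 - c X^l` -/
noncomputable def dl (l : ℕ) (c : M) : M⟦X⟧ := 1 - C c * X ^ l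

theorem isPol_dl (l : ℕ) (c : M) : IsPol (dl l c) := by
  have : dl l c = 1 + C (-c) * X ^ l := by
    rw [dl, map_neg]
    ring
  rw [this]
  exact isPol_one.add ((isPol_C _).mul (isPol_X.pow l))

theorem coeff_dl_mul (l : ℕ) (c : M) (Z : M⟦X⟧) (e : ℕ) :
    coeff e (dl l c * Z) = coeff e Z - if l ≤ e then c * coeff (e - l) Z else 0 := by
  rw [dl, sub_mul, one_mul, map_sub, mul_assoc, coeff_C_mul, coeff_X_pow_mul']
  split_ifs <;> simp

theorem dl_had (l : ℕ) (a b : M) (Z W : M⟦X⟧) :
    dl l (a * b) * had Z W = had (dl l a * Z) W + C a * had (X ^ l * Z) (dl l b * W) := by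
  ext e
  rw [coeff_dl_mul, map_add, coeff_C_mul, coeff_had, coeff_had, coeff_had, coeff_had,
    coeff_dl_mul, coeff_dl_mul, coeff_X_pow_mul']
  split_ifs
  · ring
  · ring

/-- a product of denominators -/
noncomputable def DD (l : ℕ) (A : Multiset M) : M⟦X⟧ := (A.map (dl l)).prod

theorem DD_add (l : ℕ) (A B : Multiset M) : DD l (A + B) = DD l A * DD l B := by
  rw [DD, Multiset.map_add, Multiset.prod_add]
  rfl

theorem DD_cons (l : ℕ) (a : M) (A : Multiset M) : DD l (a ::ₘ A) = dl l a * DD l A := by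
  rw [DD, Multiset.map_cons, Multiset.prod_cons]
  rfl

theorem isPol_DD (l : ℕ) (A : Multiset M) : IsPol (DD l A) := by
  induction A using Multiset.induction_on with
  | empty => rw [DD, Multiset.map_zero, Multiset.prod_zero]; exact isPol_one
  | cons a A ih => rw [DD_cons]; exact (isPol_dl l a).mul ih

/-- all products -/
def prods (A B : Multiset M) : Multiset M := A.bind fun a => B.map fun b => a * b

theorem prods_cons_left (a : M) (A B : Multiset M) :
    prods (a ::ₘ A) B = B.map (fun b => a * b) + prods A B := by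
  rw [prods, Multiset.cons_bind]
  rfl

theorem prods_cons_right (A : Multiset M) (b : M) (B : Multiset M) :
    prods A (b ::ₘ B) = A.map (fun a => a * b) + prods A B := by
  rw [prods, prods]
  have : (fun a : M => (b ::ₘ B).map fun b => a * b) =
      fun a => (a * b) ::ₘ B.map fun b => a * b := by
    funext a
    rw [Multiset.map_cons]
  rw [this, Multiset.bind_cons]

theorem had_pol (l : ℕ) (n : ℕ) : ∀ (A B : Multiset M), A.card + B.card = n → ∀ Z W : M⟦X⟧,
    IsPol (DD l A * Z) → IsPol (DD l B * W) → IsPol (DD l (prods A B) * had Z W) := by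
  induction n with
  | zero =>
    intro A B h Z W hZ hW
    have hA : A = 0 := Multiset.card_eq_zero.1 (by omega)
    subst hA
    rw [DD, Multiset.map_zero, Multiset.prod_zero, one_mul] at hZ
    obtain ⟨N, hN⟩ := hZ
    refine (isPol_DD l _).mul ⟨N, fun e he => ?_⟩
    rw [coeff_had, hN e he, zero_mul]
  | succ n ih =>
    intro A B h Z W hZ hW
    induction A using Multiset.induction_on with
    | empty =>
      rw [DD, Multiset.map_zero, Multiset.prod_zero, one_mul] at hZ
      obtain ⟨N, hN⟩ := hZ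
      refine (isPol_DD l _).mul ⟨N, fun e he => ?_⟩
      rw [coeff_had, hN e he, zero_mul]
    | cons a A _ =>
      induction B using Multiset.induction_on with
      | empty =>
        rw [DD, Multiset.map_zero, Multiset.prod_zero, one_mul] at hW
        obtain ⟨N, hN⟩ := hW
        refine (isPol_DD l _).mul ⟨N, fun e he => ?_⟩
        rw [coeff_had, hN e he, mul_zero]
      | cons b B _ =>
        rw [Multiset.card_cons, Multiset.card_cons] at h
        have h1 := ih A (b ::ₘ B) (by rw [Multiset.card_cons]; omega) (dl l a * Z) W (by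
          rw [DD_cons] at hZ
          have : DD l A * (dl l a * Z) = dl l a * DD l A * Z := by ring
          rw [this]
          exact hZ) hW
        have h2 := ih (a ::ₘ A) B (by rw [Multiset.card_cons]; omega) (X ^ l * Z) (dl l b * W) (by
          have : DD l (a ::ₘ A) * (X ^ l * Z) = X ^ l * (DD l (a ::ₘ A) * Z) := by ring
          rw [this]
          exact (isPol_X.pow l).mul hZ) (by
          rw [DD_cons] at hW
          have : DD l B * (dl l b * W) = dl l b * DD l B * W := by ring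
          rw [this]
          exact hW)
        have e1 : DD l (prods (a ::ₘ A) (b ::ₘ B)) =
            dl l (a * b) * (DD l (B.map fun b => a * b) * DD l (prods A (b ::ₘ B))) := by
          rw [prods_cons_left, Multiset.map_cons, Multiset.cons_add, DD_cons, DD_add]
        have e2 : DD l (prods (a ::ₘ A) (b ::ₘ B)) =
            dl l (a * b) * (DD l (A.map fun a => a * b) * DD l (prods (a ::ₘ A) B)) := by
          rw [prods_cons_right, Multiset.map_cons, Multiset.cons_add, DD_cons, DD_add]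
        have e3 : DD l (B.map fun b => a * b) * DD l (prods A (b ::ₘ B)) =
            DD l (A.map fun a => a * b) * DD l (prods (a ::ₘ A) B) := by
          rw [← DD_add, ← DD_add]
          congr 1
          rw [prods_cons_left, prods_cons_right]
          abel
        have e4 : DD l (prods (a ::ₘ A) (b ::ₘ B)) * had Z W =
            DD l (B.map fun b => a * b) * (DD l (prods A (b ::ₘ B)) * had (dl l a * Z) W) +
            C a * (DD l (A.map fun a => a * b) * (DD l (prods (a ::ₘ A) B) *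
              had (X ^ l * Z) (dl l b * W))) := by
          rw [e1]
          have := dl_had l a b Z W
          linear_combination (DD l (B.map fun b => a * b) * DD l (prods A (b ::ₘ B))) * this +
            C a * had (X ^ l * Z) (dl l b * W) * e3
        rw [e4]
        exact ((isPol_DD l _).mul h1).add ((isPol_C a).mul ((isPol_DD l _).mul h2))

variable (L : Mˣ)

/-- a product of denominators -/
noncomputable def dp (s : Multiset (ℕ × ℕ)) : M⟦X⟧ := (s.map fun p => 1 - qq L p.1 p.2).prod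

theorem dp_add (s t : Multiset (ℕ × ℕ)) : dp L (s + t) = dp L s * dp L t := by
  rw [dp, Multiset.map_add, Multiset.prod_add]
  rfl

theorem dp_cons (p : ℕ × ℕ) (t : Multiset (ℕ × ℕ)) :
    dp L (p ::ₘ t) = (1 - qq L p.1 p.2) * dp L t := by
  rw [dp, Multiset.map_cons, Multiset.prod_cons]
  rfl

variable {L} {K : ℕ → ℕ → Prop}

/-- the condition on the denominators -/
def OkM (K : ℕ → ℕ → Prop) (s : Multiset (ℕ × ℕ)) : Prop :=
  ∀ p ∈ s, 1 ≤ p.1 ∧ 1 ≤ p.2 ∧ K p.1 p.2

theorem OkM.add {s t : Multiset (ℕ × ℕ)} (hs : OkM K s) (ht : OkM K t) : OkM K (s + t) := by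
  intro p hp
  rcases Multiset.mem_add.1 hp with h | h
  · exact hs p h
  · exact ht p h

theorem isPol_qq (a n : ℕ) : IsPol (1 - qq L a n : M⟦X⟧) := isPol_dl a _

theorem isPol_dp (s : Multiset (ℕ × ℕ)) : IsPol (dp L s) := by
  induction s using Multiset.induction_on with
  | empty => rw [dp, Multiset.map_zero, Multiset.prod_zero]; exact isPol_one
  | cons p s ih => rw [dp_cons]; exact (isPol_qq _ _).mul ih

theorem exists_dp {Z : M⟦X⟧} (hZ : Z ∈ DenRing L K) : ∃ s, OkM K s ∧ IsPol (dp L s * Z) := by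
  induction hZ using Subring.closure_induction with
  | mem x hx =>
    rcases hx with ⟨P, rfl⟩ | ⟨a, n, ha, hn, hK, h⟩
    · exact ⟨0, fun p hp => absurd hp (Multiset.notMem_zero p), by
        rw [dp, Multiset.map_zero, Multiset.prod_zero, one_mul]; exact isPol_coe P⟩
    · refine ⟨{(a, n)}, ?_, ?_⟩
      · intro p hp
        rw [Multiset.mem_singleton] at hp
        subst hp
        exact ⟨ha, hn, hK⟩
      · rw [dp, Multiset.map_singleton, Multiset.prod_singleton, mul_comm, qq, h]
        exact isPol_one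
  | zero => exact ⟨0, fun p hp => absurd hp (Multiset.notMem_zero p), 0, by simp⟩
  | one => exact ⟨0, fun p hp => absurd hp (Multiset.notMem_zero p), by
      rw [dp, Multiset.map_zero, Multiset.prod_zero, one_mul]; exact isPol_one⟩
  | add x y _ _ hx hy =>
    obtain ⟨s, hs, hP⟩ := hx
    obtain ⟨t, ht, hQ⟩ := hy
    refine ⟨s + t, hs.add ht, ?_⟩
    have : dp L (s + t) * (x + y) = dp L t * (dp L s * x) + dp L s * (dp L t * y) := by
      rw [dp_add]; ring
    rw [this]
    exact ((isPol_dp t).mul hP).add ((isPol_dp s).mul hQ)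
  | neg x _ hx =>
    obtain ⟨s, hs, hP⟩ := hx
    refine ⟨s, hs, ?_⟩
    have : dp L s * -x = C (-1) * (dp L s * x) := by rw [map_neg, map_one]; ring
    rw [this]
    exact (isPol_C _).mul hP
  | mul x y _ _ hx hy =>
    obtain ⟨s, hs, hP⟩ := hx
    obtain ⟨t, ht, hQ⟩ := hy
    refine ⟨s + t, hs.add ht, ?_⟩
    have : dp L (s + t) * (x * y) = (dp L s * x) * (dp L t * y) := by
      rw [dp_add]; ring
    rw [this]
    exact hP.mul hQ

theorem mem_of_dp {Z : M⟦X⟧} (s : Multiset (ℕ × ℕ)) (hs : OkM K s) (h : IsPol (dp L s * Z)) :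
    Z ∈ DenRing L K := by
  induction s using Multiset.induction_on generalizing Z with
  | empty =>
    rw [dp, Multiset.map_zero, Multiset.prod_zero, one_mul] at h
    obtain ⟨P, rfl⟩ := exists_coe h
    exact Subring.subset_closure (Or.inl ⟨P, rfl⟩)
  | cons p s ih =>
    have hp := hs p (Multiset.mem_cons_self p s)
    have h1 : dp L (p ::ₘ s) * Z = dp L s * ((1 - qq L p.1 p.2) * Z) := by
      rw [dp_cons]; ring
    rw [h1] at h
    have h2 := ih (fun q hq => hs q (Multiset.mem_cons_of_mem hq)) h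
    have h3 := (DenRing L K).mul_mem (geo_mem (L := L) hp.1 hp.2.1 hp.2.2) h2
    have h4 : geo L p.1 p.2 * ((1 - qq L p.1 p.2) * Z) = Z := by
      rw [← mul_assoc, mul_comm (geo L p.1 p.2), geo_mul L hp.1, one_mul]
    rwa [h4] at h3

/-- the element `L ^ (-n l / a)` -/
noncomputable def lm (L : Mˣ) (l : ℕ) (p : ℕ × ℕ) : M := ((L⁻¹ ^ (p.2 * (l / p.1)) : Mˣ) : M)

theorem dvd_lm (l : ℕ) (p : ℕ × ℕ) (h : p.1 ∣ l) :
    ∃ Q : M⟦X⟧, IsPol Q ∧ dl l (lm L l p) = Q * (1 - qq L p.1 p.2) := by
  refine ⟨∑ i ∈ Finset.range (l / p.1), (qq L p.1 p.2) ^ i, ?_, ?_⟩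
  · have : ∀ s : Finset ℕ, IsPol (∑ i ∈ s, (qq L p.1 p.2) ^ i : M⟦X⟧) := by
      classical
      intro s
      induction s using Finset.induction_on with
      | empty => rw [Finset.sum_empty]; exact ⟨0, fun e _ => by simp⟩
      | insert i s hi ih =>
        rw [Finset.sum_insert hi]
        refine IsPol.add ?_ ih
        exact ((isPol_C _).mul (isPol_X.pow _)).pow i
    exact this _
  · have h1 := geom_sum_mul (qq L p.1 p.2 : M⟦X⟧) (l / p.1)
    have h2 : (qq L p.1 p.2 : M⟦X⟧) ^ (l / p.1) = C (lm L l p) * X ^ l := by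
      rw [qq, mul_pow, ← map_pow, ← Units.val_pow_eq_pow_val, ← pow_mul, ← pow_mul,
        Nat.mul_div_cancel' h]
      rfl
    rw [dl, ← h2]
    linear_combination h1

theorem dvd_DD (l : ℕ) (s : Multiset (ℕ × ℕ)) (h : ∀ p ∈ s, p.1 ∣ l) :
    ∃ Q : M⟦X⟧, IsPol Q ∧ DD l (s.map (lm L l)) = Q * dp L s := by
  induction s using Multiset.induction_on with
  | empty => exact ⟨1, isPol_one, by simp [DD, dp]⟩
  | cons p s ih =>
    obtain ⟨Q, hQ, e⟩ := ih fun q hq => h q (Multiset.mem_cons_of_mem hq)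
    obtain ⟨Q', hQ', e'⟩ := dvd_lm (L := L) l p (h p (Multiset.mem_cons_self p s))
    refine ⟨Q' * Q, hQ'.mul hQ, ?_⟩
    rw [Multiset.map_cons, DD_cons, dp_cons, e, e']
    ring

/-- **Coefficientwise products.** -/
theorem had_mem {K K' K'' : ℕ → ℕ → Prop} {Z W : M⟦X⟧} (hZ : Z ∈ DenRing L K)
    (hW : W ∈ DenRing L K')
    (hK : ∀ a n a' n' l : ℕ, 1 ≤ a → 1 ≤ n → K a n → 1 ≤ a' → 1 ≤ n' → K' a' n' → 1 ≤ l →
      a ∣ l → a' ∣ l → K'' l (n * (l / a) + n' * (l / a'))) : had Z W ∈ DenRing L K'' := by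
  obtain ⟨s, hs, h1⟩ := exists_dp hZ
  obtain ⟨t, ht, h2⟩ := exists_dp hW
  set l := (s.map Prod.fst).prod * (t.map Prod.fst).prod with hl
  have hl1 : 1 ≤ l := by
    have e1 : ∀ u : Multiset (ℕ × ℕ), (∀ p ∈ u, 1 ≤ p.1) → 1 ≤ (u.map Prod.fst).prod := by
      intro u
      induction u using Multiset.induction_on with
      | empty => intro _; simp
      | cons p u ih =>
        intro h
        rw [Multiset.map_cons, Multiset.prod_cons]
        exact Nat.mul_pos (h p (Multiset.mem_cons_self p u))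
          (ih fun q hq => h q (Multiset.mem_cons_of_mem hq))
    exact Nat.mul_pos (e1 s fun p hp => (hs p hp).1) (e1 t fun p hp => (ht p hp).1)
  have hsl : ∀ p ∈ s, p.1 ∣ l := fun p hp =>
    (Multiset.dvd_prod (Multiset.mem_map_of_mem _ hp)).mul_right _
  have htl : ∀ p ∈ t, p.1 ∣ l := fun p hp =>
    (Multiset.dvd_prod (Multiset.mem_map_of_mem _ hp)).mul_left _
  obtain ⟨Q, hQ, e⟩ := dvd_DD (L := L) l s hsl
  obtain ⟨Q', hQ', e'⟩ := dvd_DD (L := L) l t htl
  have h3 : IsPol (DD l (s.map (lm L l)) * Z) := by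
    rw [e, mul_assoc]
    exact hQ.mul h1
  have h4 : IsPol (DD l (t.map (lm L l)) * W) := by
    rw [e', mul_assoc]
    exact hQ'.mul h2
  have h5 := had_pol l _ _ _ rfl Z W h3 h4
  set u : Multiset (ℕ × ℕ) := s.bind fun p => t.map fun q =>
    (l, p.2 * (l / p.1) + q.2 * (l / q.1)) with hu
  have h6 : DD l (prods (s.map (lm L l)) (t.map (lm L l))) = dp L u := by
    rw [DD, dp, hu, prods, Multiset.bind_map, Multiset.map_bind, Multiset.map_bind]
    congr 1
    refine Multiset.bind_congr fun p _ => ?_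
    rw [Multiset.map_map, Multiset.map_map, Multiset.map_map]
    refine Multiset.map_congr rfl fun q _ => ?_
    simp only [Function.comp, dl, qq, lm, ← Units.val_mul, ← pow_add]
  rw [h6] at h5
  refine mem_of_dp u ?_ h5
  intro p hp
  rw [hu, Multiset.mem_bind] at hp
  obtain ⟨q, hq, hp⟩ := hp
  obtain ⟨q', hq', rfl⟩ := Multiset.mem_map.1 hp
  obtain ⟨a1, a2, a3⟩ := hs q hq
  obtain ⟨b1, b2, b3⟩ := ht q' hq'
  refine ⟨hl1, ?_, hK _ _ _ _ _ a1 a2 a3 b1 b2 b3 hl1 (hsl q hq) (htl q' hq')⟩
  have : 0 < q.2 * (l / q.1) := Nat.mul_pos a2 (Nat.div_pos (Nat.le_of_dvd hl1 (hsl q hq)) a1)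
  omega

end Pool.Agent.W574.RO
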