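import Pool.Agent.W574.RO.Sum

set_option autoImplicit false
set_option linter.unusedSectionVars false

/-! # Functional equations of products of ideals in disjoint variables -/

namespace Pool.Agent.W574.RO

open MvPolynomial Pool.Agent.W574.SM Pool.Agent.W574.HS

section

variable {σ τ ι κ : Type} [Fintype ι] [Fintype κ] [DecidableEq ι] [DecidableEq κ]

/-- families `u_N` of the form `G^N ρ(N) / G^m` -/
def Fr (G : MvPolynomial τ ℂ) (u : ℕ → MvPolynomial τ ℂ) : Prop :=
  ∃ (m : ℕ) (ρ : Polynomial (MvPolynomial τ ℂ)), ∀ N : ℕ,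
    G ^ m * u N = ρ.eval (N : MvPolynomial τ ℂ) * G ^ N

theorem fr_add {G : MvPolynomial τ ℂ} {u u' : ℕ → MvPolynomial τ ℂ} (h : Fr G u) (h' : Fr G u') :
    Fr G (fun N => u N + u' N) := by
  obtain ⟨m, ρ, e⟩ := h
  obtain ⟨m', ρ', e'⟩ := h'
  refine ⟨m + m', Polynomial.C (G ^ m') * ρ + Polynomial.C (G ^ m) * ρ', fun N => ?_⟩
  rw [Polynomial.eval_add, Polynomial.eval_mul, Polynomial.eval_mul, Polynomial.eval_C,
    Polynomial.eval_C, pow_add]
  linear_combination (G ^ m') * e N + (G ^ m) * e' N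

theorem fr_mul {G : MvPolynomial τ ℂ} {u : ℕ → MvPolynomial τ ℂ} (h : Fr G u)
    (q : MvPolynomial τ ℂ) : Fr G (fun N => q * u N) := by
  obtain ⟨m, ρ, e⟩ := h
  refine ⟨m, Polynomial.C q * ρ, fun N => ?_⟩
  rw [Polynomial.eval_mul, Polynomial.eval_C]
  linear_combination q * e N

theorem pderiv_natCast (i : τ) (N : ℕ) : pderiv i ((N : ℕ) : MvPolynomial τ ℂ) = 0 := by
  rw [← map_natCast (C : ℂ →+* MvPolynomial τ ℂ), pderiv_C]

theorem pderiv_eval (i : τ) (ρ : Polynomial (MvPolynomial τ ℂ)) :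
    ∃ ρ' : Polynomial (MvPolynomial τ ℂ), ∀ N : ℕ,
      pderiv i (ρ.eval (N : MvPolynomial τ ℂ)) = ρ'.eval (N : MvPolynomial τ ℂ) := by
  induction ρ using Polynomial.induction_on' with
  | add p q hp hq =>
    obtain ⟨p', hp'⟩ := hp
    obtain ⟨q', hq'⟩ := hq
    exact ⟨p' + q', fun N => by
      rw [Polynomial.eval_add, map_add, hp', hq', Polynomial.eval_add]⟩
  | monomial n a =>
    refine ⟨Polynomial.monomial n (pderiv i a), fun N => ?_⟩
    rw [Polynomial.eval_monomial, Polynomial.eval_monomial, Derivation.leibniz,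
      Derivation.leibniz_pow, pderiv_natCast, smul_zero, smul_zero, smul_zero, zero_add,
      smul_eq_mul, mul_comm]

theorem fr_pderiv {G : MvPolynomial τ ℂ} {u : ℕ → MvPolynomial τ ℂ} (h : Fr G u) (i : τ) :
    Fr G (fun N => pderiv i (u N)) := by
  obtain ⟨m, ρ, e⟩ := h
  obtain ⟨ρ', e'⟩ := pderiv_eval i ρ
  refine ⟨m + 1, Polynomial.C G * ρ' + Polynomial.X * Polynomial.C (pderiv i G) * ρ -
    Polynomial.C ((m : MvPolynomial τ ℂ) * pderiv i G) * ρ, fun N => ?_⟩
  have h1 := congrArg (pderiv i) (e N)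
  rw [Derivation.leibniz, Derivation.leibniz, Derivation.leibniz_pow, Derivation.leibniz_pow, e',
    smul_eq_mul, smul_eq_mul, smul_eq_mul, smul_eq_mul] at h1
  simp only [nsmul_eq_mul, smul_eq_mul] at h1
  rw [Polynomial.eval_sub, Polynomial.eval_add, Polynomial.eval_mul, Polynomial.eval_mul,
    Polynomial.eval_mul, Polynomial.eval_mul, Polynomial.eval_C, Polynomial.eval_C,
    Polynomial.eval_C, Polynomial.eval_X]
  have h2 : (m : MvPolynomial τ ℂ) * (G * G ^ (m - 1)) = m * G ^ m := by
    rcases Nat.eq_zero_or_pos m with h | h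
    · subst h
      simp
    · rw [← pow_succ', Nat.sub_add_cancel h]
  have h3 : (N : MvPolynomial τ ℂ) * (G * G ^ (N - 1)) = N * G ^ N := by
    rcases Nat.eq_zero_or_pos N with h | h
    · subst h
      simp
    · rw [← pow_succ', Nat.sub_add_cancel h]
  linear_combination G * h1 - u N * pderiv i G * h2 +
    (Polynomial.eval (N : MvPolynomial τ ℂ) ρ) * pderiv i G * h3 -
    (m : MvPolynomial τ ℂ) * pderiv i G * e N

theorem fr_weyl {G : MvPolynomial τ ℂ} (Q : Module.End ℂ (MvPolynomial τ ℂ)) (hQ : Q ∈ weyl τ) :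
    ∀ u : ℕ → MvPolynomial τ ℂ, Fr G u → Fr G (fun N => Q (u N)) := by
  induction hQ using Algebra.adjoin_induction with
  | mem Q h =>
    intro u hu
    rcases h with ⟨i, rfl⟩ | ⟨i, rfl⟩
    · exact fr_mul hu (X i)
    · exact fr_pderiv hu i
  | algebraMap r =>
    intro u hu
    have := fr_mul hu (C r)
    simp only [C_mul'] at this
    exact this
  | add Q Q' _ _ h h' =>
    intro u hu
    exact fr_add (h u hu) (h' u hu)
  | mul Q Q' _ _ h h' =>
    intro u hu
    exact h _ (h' u hu)

/-- the values of `Q (G^N r)` at a point where `G` does not vanish -/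
theorem eval_weyl (G r : MvPolynomial τ ℂ) (y : τ → ℂ) (hG : eval y G ≠ 0) (Q : weyl τ) :
    ∃ π : Polynomial ℂ, ∀ N : ℕ,
      eval y ((Q : Module.End ℂ (MvPolynomial τ ℂ)) (G ^ N * r)) = π.eval (N : ℂ) *
        eval y G ^ N := by
  obtain ⟨m, ρ, e⟩ := fr_weyl (G := G) Q.1 Q.2 (fun N => G ^ N * r)
    ⟨0, Polynomial.C r, fun N => by rw [Polynomial.eval_C]; ring⟩
  refine ⟨Polynomial.C ((eval y G ^ m)⁻¹) * ρ.map (eval y), fun N => ?_⟩
  have h1 := congrArg (eval y) (e N)
  have h2 : eval y (ρ.eval (N : MvPolynomial τ ℂ)) = (ρ.map (eval y)).eval (N : ℂ) := by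
    rw [Polynomial.eval_map, Polynomial.eval₂_at_natCast]
  rw [map_mul, map_mul, map_pow, map_pow, h2] at h1
  rw [Polynomial.eval_mul, Polynomial.eval_C]
  have h3 : eval y G ^ m ≠ 0 := pow_ne_zero _ hG
  field_simp
  rw [mul_comm]
  exact h1

/-- the generators of the product of two ideals in disjoint variables -/
noncomputable def mulf (f : ι → MvPolynomial σ ℂ) (g : κ → MvPolynomial τ ℂ) :
    ι × κ → MvPolynomial (σ ⊕ τ) ℂ :=
  fun p => rename Sum.inl (f p.1) * rename Sum.inr (g p.2)

/-- the exponents `t_j` of `f_j g_{k0}`, and `0` of the other generators -/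
def ext0 (k0 : κ) (t : ι → ℕ) : ι × κ → ℕ := fun p => if p.2 = k0 then t p.1 else 0

/-- evaluation of the second variables -/
noncomputable def evy (y : τ → ℂ) : MvPolynomial (σ ⊕ τ) ℂ →ₐ[ℂ] MvPolynomial σ ℂ :=
  aeval (Sum.elim X fun i => C (y i))

theorem evy_inl (y : τ → ℂ) (p : MvPolynomial σ ℂ) : evy y (rename Sum.inl p) = p := by
  rw [evy, aeval_rename, Sum.elim_comp_inl]
  simp

theorem evy_inr (y : τ → ℂ) (q : MvPolynomial τ ℂ) :
    evy (σ := σ) y (rename Sum.inr q) = C (eval y q) := by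
  rw [evy, aeval_rename, Sum.elim_comp_inr]
  induction q using MvPolynomial.induction_on with
  | C a => simp
  | add p q hp hq => simp only [map_add, hp, hq]
  | mul_X p j hp => simp only [map_mul, hp, aeval_X, eval_X]

theorem sum_ext0 (k0 : κ) (t : ι → ℕ) : ∑ p, ext0 k0 t p = ∑ j, t j := by
  rw [Fintype.sum_prod_type]
  refine Finset.sum_congr rfl fun j _ => ?_
  simp [ext0]

/-- the restriction of a function to the exponents of the `f_j g_{k0}` and `y` -/
noncomputable def Res (k0 : κ) (y : τ → ℂ) (γ : ℂ) :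
    AF (σ ⊕ τ) (ι × κ) →ₗ[ℂ] AF σ ι where
  toFun H := fun t => (γ ^ (∑ j, t j))⁻¹ • evy y (H (ext0 k0 t))
  map_add' H H' := by
    funext t
    rw [Pi.add_apply, map_add, smul_add]
    rfl
  map_smul' a H := by
    funext t
    rw [Pi.smul_apply, map_smul, RingHom.id_apply, Pi.smul_apply, smul_comm]

theorem choose_poly (m m' : ℕ) (h : m' ≤ m) :
    ∃ ρ : Polynomial ℂ, ∀ t : ℕ, ((t.choose m : ℕ) : ℂ) = ρ.eval (t : ℂ) * (t.choose m' : ℕ) := by
  induction m, h using Nat.le_induction with
  | base => exact ⟨1, fun t => by simp⟩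
  | succ m hm ih =>
    obtain ⟨ρ, hρ⟩ := ih
    refine ⟨Polynomial.C (((m : ℂ) + 1)⁻¹) * (Polynomial.X - Polynomial.C (m : ℂ)) * ρ,
      fun t => ?_⟩
    have h1 := Nat.choose_succ_right_eq t m
    have h2 : ((t.choose (m + 1) : ℕ) : ℂ) * (m + 1) = (t.choose m : ℕ) * (t - m) := by
      by_cases htm : m ≤ t
      · have : ((t - m : ℕ) : ℂ) = (t : ℂ) - m := by push_cast [htm]; ring
        rw [← this]
        exact_mod_cast h1
      · rw [Nat.choose_eq_zero_of_lt (show t < m by omega),
          Nat.choose_eq_zero_of_lt (show t < m + 1 by omega)]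
        simp
    have h3 : (m : ℂ) + 1 ≠ 0 := by exact_mod_cast Nat.succ_ne_zero m
    simp only [Polynomial.eval_mul, Polynomial.eval_C, Polynomial.eval_sub, Polynomial.eval_X]
    rw [hρ] at h2
    field_simp
    linear_combination h2

theorem choose_ite (n : ℕ) (c : ℤ) :
    (if c < 0 then n.choose (-c).toNat else 1) = n.choose (-c).toNat := by
  split_ifs with h
  · rfl
  · have : (-c).toNat = 0 := by omega
    rw [this, Nat.choose_zero_right]

theorem gterm_eq (f : ι → MvPolynomial σ ℂ) (c : ι → ℤ) (s : ι → ℕ) :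
    gterm f c s = C ((∏ j, (s j).choose (-c j).toNat : ℕ) : ℂ) *
      ∏ j, f j ^ ((s j : ℤ) + c j).toNat := by
  rw [gterm]
  simp only [choose_ite]

/-- the restriction maps the first step of the filtration to the first step -/
theorem res_gen (f : ι → MvPolynomial σ ℂ) (g : κ → MvPolynomial τ ℂ) (k0 : κ) (y : τ → ℂ)
    (hy : eval y (g k0) ≠ 0) (P : (ι × κ →₀ ℕ) →₀ weyl (σ ⊕ τ)) (c : ι × κ → ℤ) (a : ℤ)
    (hc : ∑ p, c p = a) : Res k0 y (eval y (g k0)) (gen (mulf f g) P c) ∈ V f a := by
  classical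
  set γ := eval y (g k0) with hγ
  by_cases hneg : ∃ j k, k ≠ k0 ∧ c (j, k) < 0
  · obtain ⟨j, k, hk, hjk⟩ := hneg
    have : Res k0 y γ (gen (mulf f g) P c) = 0 := by
      funext t
      change (γ ^ (∑ j, t j))⁻¹ • evy y (gen (mulf f g) P c (ext0 k0 t)) = 0
      have h0 : (∏ p, (ext0 k0 t p).choose (-c p).toNat) = 0 := by
        refine Finset.prod_eq_zero (Finset.mem_univ (j, k)) ?_
        rw [ext0, if_neg hk, Nat.choose_eq_zero_iff]
        omega
      rw [gen, gterm_eq, h0, Nat.cast_zero, map_zero, zero_mul]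
      have : applyAt P (ext0 k0 t) (0 : MvPolynomial (σ ⊕ τ) ℂ) = 0 := by
        simp [applyAt]
      rw [this, map_zero, smul_zero]
    rw [this]
    exact Submodule.zero_mem _
  push Not at hneg
  choose m Q Q' hQ using fun β : (ι × κ) →₀ ℕ => weyl_splits (P β).1 (P β).2
  set r : MvPolynomial τ ℂ := ∏ j, ∏ k ∈ Finset.univ.erase k0, g k ^ (c (j, k)).toNat with hr
  choose π hπ using fun (β : (ι × κ) →₀ ℕ) (i : Fin (m β)) => eval_weyl (g k0) r y hy (Q' β i)
  set d : ι → ℤ := fun j => ∑ k, c (j, k) with hd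
  have hle : ∀ j, (-d j).toNat ≤ (-c (j, k0)).toNat := by
    intro j
    have : c (j, k0) ≤ d j := by
      rw [hd]
      change _ ≤ ∑ k, c (j, k)
      rw [← Finset.add_sum_erase Finset.univ (fun k => c (j, k)) (Finset.mem_univ k0)]
      have : 0 ≤ ∑ k ∈ Finset.univ.erase k0, c (j, k) :=
        Finset.sum_nonneg fun k hk => hneg j k (Finset.ne_of_mem_erase hk)
      omega
    omega
  choose ρ hρ using fun j => choose_poly _ _ (hle j)
  set C0 : ℤ := ∑ j, c (j, k0) with hC0
  set pol : (β : (ι × κ) →₀ ℕ) → Fin (m β) → MvPolynomial ι ℂ := fun β i =>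
    C (γ ^ C0) * (∏ p : ι × κ, (if p.2 = k0 then X p.1 else 0) ^ β p) *
      (Polynomial.aeval (∑ j, (X j : MvPolynomial ι ℂ) + C (C0 : ℂ)) (π β i)) *
      ∏ j, Polynomial.aeval (X j : MvPolynomial ι ℂ) (ρ j) with hpol
  have hγ0 : γ ≠ 0 := hy
  have key : Res k0 y γ (gen (mulf f g) P c) = ∑ β ∈ P.support, ∑ i : Fin (m β),
      gen f (tens (pol β i) (Q β i)) d := by
    funext t
    have hae : ∀ (q : Polynomial ℂ) (x : MvPolynomial ι ℂ),
        eval (fun j => (t j : ℂ)) (Polynomial.aeval x q) =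
          q.eval (eval (fun j => (t j : ℂ)) x) := by
      intro q x
      rw [Polynomial.aeval_def, Polynomial.hom_eval₂]
      congr 1
      ext a
      simp [MvPolynomial.algebraMap_eq]
    change (γ ^ (∑ j, t j))⁻¹ • evy y (gen (mulf f g) P c (ext0 k0 t)) = _
    rw [gen, applyAt, Finsupp.sum, map_sum, Finset.smul_sum, Finset.sum_apply]
    refine Finset.sum_congr rfl fun β _ => ?_
    rw [Finset.sum_apply]
    have hB : (∏ p, (ext0 k0 t p).choose (-c p).toNat) = ∏ j, (t j).choose (-c (j, k0)).toNat := by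
      rw [Fintype.prod_prod_type]
      refine Finset.prod_congr rfl fun j _ => ?_
      rw [Finset.prod_eq_single k0]
      · rw [ext0, if_pos rfl]
      · intro k _ hk
        have : (-c (j, k)).toNat = 0 := by have := hneg j k hk; omega
        rw [this, Nat.choose_zero_right]
      · intro h; exact absurd (Finset.mem_univ _) h
    have hBρ : ((∏ j, (t j).choose (-c (j, k0)).toNat : ℕ) : ℂ) =
        (∏ j, (ρ j).eval (t j : ℂ)) * ((∏ j, (t j).choose (-d j).toNat : ℕ) : ℂ) := by
      rw [Nat.cast_prod, Nat.cast_prod, ← Finset.prod_mul_distrib]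
      exact Finset.prod_congr rfl fun j _ => hρ j (t j)
    -- the right hand side
    have hR : ∀ i : Fin (m β), gen f (tens (pol β i) (Q β i)) d t =
        (γ ^ C0 * (∏ p : ι × κ, ((ext0 k0 t p : ℕ) : ℂ) ^ β p) *
          (π β i).eval ((∑ j, (t j : ℂ)) + C0)) •
        ((Q β i : Module.End ℂ (MvPolynomial σ ℂ))
          (C ((∏ j, (t j).choose (-c (j, k0)).toNat : ℕ) : ℂ) *
            ∏ j, f j ^ ((t j : ℤ) + d j).toNat)) := by
      intro i
      have e0 : C ((∏ j, (t j).choose (-c (j, k0)).toNat : ℕ) : ℂ) *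
          ∏ j, f j ^ ((t j : ℤ) + d j).toNat = (∏ j, (ρ j).eval (t j : ℂ)) •
          (C ((∏ j, (t j).choose (-d j).toNat : ℕ) : ℂ) * ∏ j, f j ^ ((t j : ℤ) + d j).toNat) := by
        rw [hBρ, map_mul, mul_assoc, C_mul']
      rw [gen, applyAt_tens, gterm_eq, e0, map_smul, smul_smul]
      congr 1
      rw [hpol]
      simp only [map_mul, eval_C, map_prod, map_pow, hae, map_add, map_sum, eval_X]
      congr 3
      refine Finset.prod_congr rfl fun p _ => ?_
      rw [ext0]
      split_ifs
      · rw [eval_X]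
      · rw [map_zero, Nat.cast_zero]
    rw [Finset.sum_congr rfl fun i _ => hR i]
    by_cases hval : ∀ j, 0 ≤ (t j : ℤ) + c (j, k0)
    · have hN : (((∑ j, ((t j : ℤ) + c (j, k0)).toNat : ℕ)) : ℤ) = ∑ j, (t j : ℤ) + C0 := by
        rw [Nat.cast_sum, hC0, ← Finset.sum_add_distrib]
        exact Finset.sum_congr rfl fun j _ => Int.toNat_of_nonneg (hval j)
      have hG : gterm (mulf f g) c (ext0 k0 t) =
          rename Sum.inl (C ((∏ j, (t j).choose (-c (j, k0)).toNat : ℕ) : ℂ) *
            ∏ j, f j ^ ((t j : ℤ) + d j).toNat) *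
          rename Sum.inr (g k0 ^ (∑ j, ((t j : ℤ) + c (j, k0)).toNat) * r) := by
        rw [gterm_eq, hB, map_mul, map_mul, rename_C, mul_assoc]
        congr 1
        rw [Fintype.prod_prod_type]
        have e1 : ∀ j, ∏ k, mulf f g (j, k) ^ ((ext0 k0 t (j, k) : ℤ) + c (j, k)).toNat =
            rename Sum.inl (f j ^ ((t j : ℤ) + d j).toNat) *
            (rename Sum.inr (g k0 ^ ((t j : ℤ) + c (j, k0)).toNat) *
              rename Sum.inr (∏ k ∈ Finset.univ.erase k0, g k ^ (c (j, k)).toNat)) := by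
          intro j
          simp only [mulf, mul_pow]
          rw [Finset.prod_mul_distrib, Finset.prod_pow_eq_pow_sum]
          have e2 : ∑ k, ((ext0 k0 t (j, k) : ℤ) + c (j, k)).toNat = ((t j : ℤ) + d j).toNat := by
            have : ((∑ k, ((ext0 k0 t (j, k) : ℤ) + c (j, k)).toNat : ℕ) : ℤ) = (t j : ℤ) + d j := by
              rw [Nat.cast_sum]
              have : ∀ k, ((((ext0 k0 t (j, k) : ℤ) + c (j, k)).toNat : ℕ) : ℤ) =
                  (ext0 k0 t (j, k) : ℤ) + c (j, k) := by
                intro k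
                refine Int.toNat_of_nonneg ?_
                by_cases hk : k = k0
                · subst hk
                  rw [ext0, if_pos rfl]
                  exact hval j
                · rw [ext0, if_neg hk]
                  have := hneg j k hk
                  simpa using this
              simp only [this]
              rw [Finset.sum_add_distrib]
              congr 1
              rw [Finset.sum_eq_single k0]
              · rw [ext0, if_pos rfl]
              · intro k _ hk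
                rw [ext0, if_neg hk, Nat.cast_zero]
              · intro h; exact absurd (Finset.mem_univ _) h
            omega
          rw [e2, map_pow]
          congr 1
          rw [← Finset.mul_prod_erase Finset.univ _ (Finset.mem_univ k0), map_pow, map_prod]
          congr 1
          · rw [ext0, if_pos rfl]
          · refine Finset.prod_congr rfl fun k hk => ?_
            rw [ext0, if_neg (Finset.ne_of_mem_erase hk), Nat.cast_zero, zero_add, map_pow]
        rw [Finset.prod_congr rfl fun j _ => e1 j, Finset.prod_mul_distrib,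
          Finset.prod_mul_distrib, hr, ← Finset.prod_pow_eq_pow_sum]
        simp only [map_mul, map_prod, map_pow]
      rw [hG, hQ β, map_smul, map_sum, smul_smul, Finset.smul_sum]
      refine Finset.sum_congr rfl fun i _ => ?_
      have e5 : ∀ (x : MvPolynomial σ ℂ) (a : ℂ), x * C a = a • x := fun x a => by
        rw [mul_comm, C_mul']
      rw [map_mul, evy_inl, evy_inr, hπ β i, e5, smul_smul]
      congr 1
      have e3 : ((∑ j, ((t j : ℤ) + c (j, k0)).toNat : ℕ) : ℂ) = (∑ j, (t j : ℂ)) + C0 := by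
        have := congrArg (Int.cast : ℤ → ℂ) hN
        push_cast at this ⊢
        exact this
      have e4 : γ ^ (∑ j, ((t j : ℤ) + c (j, k0)).toNat) = γ ^ (∑ j, t j) * γ ^ C0 := by
        rw [← zpow_natCast, hN, zpow_add₀ hγ0, ← zpow_natCast γ (∑ j, t j)]
        push_cast
        rfl
      rw [e3, e4]
      have h5 : γ ^ (∑ j, t j) ≠ 0 := pow_ne_zero _ hγ0
      field_simp
    · push Not at hval
      obtain ⟨j, hj⟩ := hval
      have h0 : (∏ j, (t j).choose (-c (j, k0)).toNat) = 0 := by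
        refine Finset.prod_eq_zero (Finset.mem_univ j) ?_
        rw [Nat.choose_eq_zero_iff]
        omega
      rw [gterm_eq, hB, h0, Nat.cast_zero, map_zero, zero_mul, map_zero, smul_zero, map_zero,
        smul_zero]
      symm
      refine Finset.sum_eq_zero fun i _ => ?_
      rw [map_zero, zero_mul, map_zero, smul_zero]
  rw [key]
  refine Submodule.sum_mem _ fun β _ => Submodule.sum_mem _ fun i _ => gen_mem f _ _ ?_
  rw [hd, ← hc, Fintype.sum_prod_type]

theorem res_V (f : ι → MvPolynomial σ ℂ) (g : κ → MvPolynomial τ ℂ) (k0 : κ) (y : τ → ℂ)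
    (hy : eval y (g k0) ≠ 0) (a : ℤ) (H : AF (σ ⊕ τ) (ι × κ)) (hH : H ∈ V (mulf f g) a) :
    Res k0 y (eval y (g k0)) H ∈ V f a := by
  induction hH using Submodule.span_induction with
  | mem H h =>
    obtain ⟨P, c, hc, rfl⟩ := h
    exact res_gen f g k0 y hy P c a hc
  | zero => rw [map_zero]; exact Submodule.zero_mem _
  | add H H' _ _ h h' => rw [map_add]; exact Submodule.add_mem _ h h'
  | smul r H _ h => rw [map_smul]; exact Submodule.smul_mem _ _ h

/-- **Functional equations of a product of ideals.** -/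
theorem functionalEq_mul (f : ι → MvPolynomial σ ℂ) (g : κ → MvPolynomial τ ℂ)
    (hg : ∃ k, g k ≠ 0) (b : Polynomial ℂ) (hb : IsFunctionalEq (mulf f g) b) :
    IsFunctionalEq f b := by
  classical
  obtain ⟨k0, hk0⟩ := hg
  obtain ⟨y, hy⟩ : ∃ y : τ → ℂ, eval y (g k0) ≠ 0 := by
    by_contra h
    push Not at h
    exact hk0 (MvPolynomial.funext fun y => by rw [h, map_zero])
  rw [functionalEq_iff] at hb ⊢
  have h := res_V f g k0 y hy 1 _ hb
  have e : Res k0 y (eval y (g k0)) (mulb b (G0 (mulf f g))) = mulb b (G0 f) := by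
    funext t
    change ((eval y (g k0)) ^ (∑ j, t j))⁻¹ • evy y (C (b.eval ((∑ j, ext0 k0 t j : ℕ) : ℂ)) *
      ∏ p, mulf f g p ^ ext0 k0 t p) = C (b.eval ((∑ j, t j : ℕ) : ℂ)) * ∏ j, f j ^ t j
    have h1 : ∏ p, mulf f g p ^ ext0 k0 t p = rename Sum.inl (∏ j, f j ^ t j) *
        rename Sum.inr (g k0 ^ (∑ j, t j)) := by
      rw [Fintype.prod_prod_type, map_prod, map_pow, ← Finset.prod_pow_eq_pow_sum,
        ← Finset.prod_mul_distrib]
      refine Finset.prod_congr rfl fun j _ => ?_
      rw [Finset.prod_eq_single k0]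
      · rw [ext0, if_pos rfl, mulf, mul_pow, map_pow]
      · intro k _ hk
        rw [ext0, if_neg hk, pow_zero]
      · intro h; exact absurd (Finset.mem_univ _) h
    rw [sum_ext0, h1, map_mul, map_mul, evy_inl, evy_inr, map_pow]
    have h2 : evy (σ := σ) y (C (b.eval ((∑ j, t j : ℕ) : ℂ))) =
        C (b.eval ((∑ j, t j : ℕ) : ℂ)) := by
      rw [evy, aeval_C]
      rfl
    rw [h2, mul_comm (∏ j, f j ^ t j), C_mul', C_mul', C_mul', smul_comm, smul_smul,
      smul_smul, mul_assoc, inv_mul_cancel₀ (pow_ne_zero _ hy), mul_one]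
  rw [e] at h
  exact h

end

end Pool.Agent.W574.RO
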