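import Pool.Agent.W574.RO.Tail
import Pool.Agent.W574.RO.Prod
import Pool.Agent.W574.MO.Plane

set_option autoImplicit false
set_option linter.unusedSectionVars false
set_option linter.unusedVariables false

/-! # The contribution of a point has the value one at `T = 1` -/

namespace Pool.Agent.W574.RO

open Pool.Agent.W574.MO Pool.Agent.W574.SM Pool.Agent.W574.LM

open Polynomial

/-- the quotient field of `ℤ[L, L⁻¹]` -/
abbrev FF : Type := FractionRing AA

/-- the value of a rational power series at `T = 1` is `v` -/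
def Val (Z : PowerSeries AA) (v : FF) : Prop :=
  ∃ D N : AA[X], (D : PowerSeries AA) * Z = N ∧ D.eval 1 ≠ 0 ∧
    algebraMap AA FF (N.eval 1) = v * algebraMap AA FF (D.eval 1)

theorem Val.add {Z W : PowerSeries AA} {v w : FF} (hZ : Val Z v) (hW : Val W w) :
    Val (Z + W) (v + w) := by
  obtain ⟨D, N, h1, h2, h3⟩ := hZ
  obtain ⟨D', N', h1', h2', h3'⟩ := hW
  refine ⟨D * D', D' * N + D * N', ?_, ?_, ?_⟩
  · rw [Polynomial.coe_mul, Polynomial.coe_add, Polynomial.coe_mul, Polynomial.coe_mul, ← h1,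
      ← h1']
    ring
  · rw [eval_mul]
    exact mul_ne_zero h2 h2'
  · rw [eval_add, eval_mul, eval_mul, eval_mul, map_add, map_mul, map_mul, map_mul, h3, h3']
    ring

theorem Val.mul {Z W : PowerSeries AA} {v w : FF} (hZ : Val Z v) (hW : Val W w) :
    Val (Z * W) (v * w) := by
  obtain ⟨D, N, h1, h2, h3⟩ := hZ
  obtain ⟨D', N', h1', h2', h3'⟩ := hW
  refine ⟨D * D', N * N', ?_, ?_, ?_⟩
  · rw [Polynomial.coe_mul, Polynomial.coe_mul, ← h1, ← h1']
    ring
  · rw [eval_mul]
    exact mul_ne_zero h2 h2'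
  · rw [eval_mul, eval_mul, map_mul, map_mul, h3, h3']
    ring

theorem val_C (m : AA) : Val (PowerSeries.C m) (algebraMap AA FF m) :=
  ⟨1, C m, by simp, by simp, by simp⟩

theorem Val.sum {α : Type} (s : Finset α) (Z : α → PowerSeries AA) (v : α → FF)
    (h : ∀ i ∈ s, Val (Z i) (v i)) : Val (∑ i ∈ s, Z i) (∑ i ∈ s, v i) := by
  classical
  induction s using Finset.induction_on with
  | empty =>
    rw [Finset.sum_empty, Finset.sum_empty]
    have := val_C 0
    rwa [map_zero, map_zero] at this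
  | insert i s hi ih =>
    rw [Finset.sum_insert hi, Finset.sum_insert hi]
    exact (h i (Finset.mem_insert_self i s)).add
      (ih fun j hj => h j (Finset.mem_insert_of_mem hj))

/-- `L ^ n` in the quotient field -/
noncomputable def lf (n : ℕ) : FF := algebraMap AA FF ((LL ^ n : AAˣ) : AA)

theorem lf_mul (m n : ℕ) : lf (m + n) = lf m * lf n := by
  rw [lf, lf, lf, pow_add, Units.val_mul, map_mul]

theorem lf_ne (n : ℕ) (hn : 1 ≤ n) : lf n - 1 ≠ 0 := by
  intro h
  have h1 := LL_pow_ne (k := n) (l := 0) (by omega)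
  apply h1
  apply IsFractionRing.injective AA FF
  rw [map_sub, pow_zero, Units.val_one, map_one, map_zero]
  exact h

theorem val_mf (a n : ℕ) (hn : 1 ≤ n) (h : a = 0 → n = 1) :
    Val (mf LL a n) ((lf 1 - 1) / (lf n - 1)) := by
  rcases Nat.eq_zero_or_pos a with ha | ha
  · have hn1 := h ha
    subst hn1
    rw [ha, mf_zero, div_self (lf_ne 1 le_rfl)]
    have := val_C 1
    rwa [map_one, map_one] at this
  · refine ⟨dn (a, n), C (((LL : AA) - 1) * ((LL⁻¹ ^ n : AAˣ) : AA)) * X ^ a, ?_, ?_, ?_⟩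
    · rw [coe_dn, mf_pos LL ha]
      have := geo_mul LL ha n
      have e : (((C (((LL : AA) - 1) * ((LL⁻¹ ^ n : AAˣ) : AA)) * X ^ a : AA[X])) :
          PowerSeries AA) = PowerSeries.C ((LL : AA) - 1) * qq LL a n := by
        rw [qq, Polynomial.coe_mul, Polynomial.coe_C, Polynomial.coe_pow, Polynomial.coe_X,
          map_mul]
        ring
      rw [e]
      linear_combination (PowerSeries.C ((LL : AA) - 1) * qq LL a n) * this
    · rw [dn, eval_sub, eval_mul, eval_C, eval_pow, eval_X, one_pow, mul_one, eval_one]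
      intro h0
      have h1 := LL_pow_ne (k := n) (l := 0) (by omega)
      apply h1
      rw [pow_zero, Units.val_one]
      have h2 : ((LL ^ n : AAˣ) : AA) * ((LL⁻¹ ^ n : AAˣ) : AA) = 1 := by
        rw [← Units.val_mul, ← mul_pow, mul_inv_cancel, one_pow, Units.val_one]
      linear_combination ((LL ^ n : AAˣ) : AA) * h0 + h2
    · have h2 : lf n * algebraMap AA FF ((LL⁻¹ ^ n : AAˣ) : AA) = 1 := by
        rw [lf, ← map_mul, ← Units.val_mul, ← mul_pow, mul_inv_cancel, one_pow, Units.val_one,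
          map_one]
      have h3 : algebraMap AA FF (LL : AA) = lf 1 := by rw [lf, pow_one]
      rw [dn]
      simp only [eval_sub, eval_mul, eval_C, eval_pow, eval_X, one_pow, mul_one, eval_one, map_sub,
        map_mul, map_one, h3]
      have h4 := lf_ne n hn
      rw [div_mul_eq_mul_div, eq_div_iff h4]
      linear_combination (lf 1 - 1) * h2

theorem val_local {ι : Type} {g : ι → MP} {a0 n0 a1 n1 : ℕ} {Z : PowerSeries AA}
    (hZ : MotLocal LL g a0 n0 a1 n1 Z) (hn0 : 1 ≤ n0) (hn1 : 1 ≤ n1) (hz0 : a0 = 0 → n0 = 1)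
    (hz1 : a1 = 0 → n1 = 1) :
    Val Z ((lf 1 - 1) / (lf n0 - 1) * ((lf 1 - 1) / (lf n1 - 1))) := by
  classical
  induction hZ with
  | unit g a0 n0 a1 n1 j hj => exact (val_mf a0 n0 hn0 hz0).mul (val_mf a1 n1 hn1 hz1)
  | curveV g a0 n0 m hm h k hg h0 h1 j hj =>
    exact (val_mf a0 n0 hn0 hz0).mul (val_mf m 1 le_rfl fun _ => rfl)
  | curveU g a1 n1 m hm h k hg h0 h1 j hj =>
    rw [mul_comm ((lf 1 - 1) / (lf 1 - 1))]
    exact (val_mf a1 n1 hn1 hz1).mul (val_mf m 1 le_rfl fun _ => rfl)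
  | blowup g a0 n0 a1 n1 m hm gc gI hgc hgI S h0S hS Zc ZI h0 hc hI ih0 ihc ihI =>
    have hnn : 1 ≤ n0 + n1 := by omega
    have e0 := ih0 hnn hn1 (fun h => by omega) hz1
    have eI := ihI hn0 hnn hz0 (fun h => by omega)
    set v : ℂ → FF := fun c => if c = 0 then (lf 1 - 1) / (lf (n0 + n1) - 1) *
      ((lf 1 - 1) / (lf n1 - 1)) else (lf 1 - 1) / (lf (n0 + n1) - 1) with hv
    have hsum := Val.sum S Zc v fun c hcS => by
      by_cases h : c = 0
      · rw [hv]
        simp only [if_pos h]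
        rw [h]
        exact e0
      · rw [hv]
        simp only [if_neg h]
        have := ihc c hcS h hnn le_rfl (fun h => by omega) (fun _ => rfl)
        rwa [div_self (lf_ne 1 le_rfl), mul_one] at this
    have hE := (val_C ((LL : AA) - (S.card : AA))).mul
      (val_mf (a0 + a1 + m) (n0 + n1) hnn (fun h => by omega))
    have hall := (eI.add hsum).add hE
    convert hall using 1
    have h1 : ∑ c ∈ S, v c = (lf 1 - 1) / (lf (n0 + n1) - 1) * ((lf 1 - 1) / (lf n1 - 1)) +
        ((S.card : FF) - 1) * ((lf 1 - 1) / (lf (n0 + n1) - 1)) := by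
      rw [← Finset.add_sum_erase S v h0S]
      congr 1
      · rw [hv]
        simp only [if_true]
      · rw [Finset.sum_congr rfl (g := fun _ => (lf 1 - 1) / (lf (n0 + n1) - 1)) fun c hc => ?_]
        · rw [Finset.sum_const, Finset.card_erase_of_mem h0S, nsmul_eq_mul,
            Nat.cast_sub (Finset.card_pos.2 ⟨0, h0S⟩), Nat.cast_one]
        · rw [hv]
          simp only [if_neg (Finset.ne_of_mem_erase hc)]
    rw [h1, map_sub, map_natCast]
    have h3 : algebraMap AA FF (LL : AA) = lf 1 := by rw [lf, pow_one]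
    have g0 := lf_ne n0 hn0
    have g1 := lf_ne n1 hn1
    have g2 := lf_ne (n0 + n1) hnn
    rw [h3]
    have h4 := lf_mul n0 n1
    field_simp
    rw [h4]
    ring

/-- the series of the volumes of the sets `ord ≥ e` -/
theorem tail_mem_of_val {K : ℕ → ℕ → Prop} {Z : PowerSeries AA} (hZ : Z ∈ DenRing LL K)
    (hv : Val Z 1) : tail 1 Z ∈ DenRing LL K := by
  obtain ⟨s, hs, P, hP⟩ := exists_denom hZ
  obtain ⟨D, N, h1, h2, h3⟩ := hv
  rw [one_mul] at h3
  have h4 : N.eval 1 = D.eval 1 := IsFractionRing.injective AA FF h3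
  have h5 : D * P = dprod s * N := by
    apply Polynomial.coe_injective
    rw [Polynomial.coe_mul, Polynomial.coe_mul, ← hP, ← h1]
    ring
  have h6 := congrArg (Polynomial.eval 1) h5
  rw [eval_mul, eval_mul, h4, mul_comm] at h6
  have h7 : P.eval 1 = (dprod s).eval 1 := mul_right_cancel₀ h2 h6
  have h8 : (X - C 1 : AA[X]) ∣ X * P - dprod s := by
    rw [Polynomial.dvd_iff_isRoot, IsRoot, eval_sub, eval_mul, eval_X, one_mul, h7, sub_self]
  obtain ⟨Q, hQ⟩ := h8
  refine mem_of_denom s hs Q ?_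
  apply one_sub_X_cancel
  have h9 := congrArg (fun q : AA[X] => (q : PowerSeries AA)) hQ
  simp only [Polynomial.coe_sub, Polynomial.coe_mul, Polynomial.coe_X, map_one,
    Polynomial.coe_one] at h9
  have h10 := tail_eq 1 Z
  rw [map_one] at h10
  linear_combination (dprod s : PowerSeries AA) * h10 - PowerSeries.X * hP - h9

theorem Phi_tail {M : Type} [CommRing M] (L : Mˣ) (Z : PowerSeries AA) :
    MO.Phi L (tail 1 Z) = tail 1 (MO.Phi L Z) := by
  ext e
  rw [coeff_tail, MO.Phi, PowerSeries.coeff_map, coeff_tail, map_sub, map_one, map_sum]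
  simp only [PowerSeries.coeff_map]

variable {ι : Type} [Fintype ι] [DecidableEq ι]

/-- the denominators which belong to roots of all `b` -/
def KF {σ ι : Type} [Fintype ι] (f : ι → MvPolynomial σ ℂ) (a n : ℕ) : Prop :=
  Forced f (-(n : ℂ) / a)

theorem point_forced {M : Type} [CommRing M] (L : Mˣ) (f : ι → MP) (P : Fin 2 → ℂ)
    (Z : PowerSeries M) (hZ : MotLocal L (fun j => translate P (f j)) 0 1 0 1 Z) :
    tail 1 Z ∈ DenRing L (KF f) := by
  classical
  obtain ⟨Z0, hZ0, rfl⟩ := exists_univ L hZ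
  rw [← Phi_tail]
  apply Phi_mem
  apply tail_mem_of_val
  · obtain ⟨s, hs, Q, hQ⟩ := exists_denom (mem_all LL hZ0 le_rfl le_rfl)
    refine descent (KF f) Z0 s (fun p hp => ⟨(hs p hp).1, (hs p hp).2.1⟩) ?_ Q hQ
    intro a n ha hn hne
    have hac : (a : ℂ) ≠ 0 := Nat.cast_ne_zero.2 (by omega)
    obtain ⟨b, hb, hbn⟩ : ∃ b, IsFunctionalEq f b ∧ b.eval (-(n : ℂ) / a) ≠ 0 := by
      by_contra h
      push Not at h
      exact hne h
    obtain ⟨c0, m0, c1, m1, _, _, h1⟩ := local_mainM LL f b 1 (locEq_one f b hb)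
      (-(n : ℂ) / a) hbn hZ0 (inv_initialL 1 f P (by rw [map_one]; exact one_ne_zero) _)
    rw [mf_zero, mul_one, mul_one] at h1
    have h2 := (DenRing LL (Kn (-(n : ℂ) / a))).add_mem
      ((DenRing LL (Kn (-(n : ℂ) / a))).add_mem h1 m1) m0
    rw [sub_add_cancel, sub_add_cancel] at h2
    refine Subring.closure_mono (Set.union_subset_union_right _ ?_) h2
    rintro u ⟨a', n', ha', hn', hK, hu⟩
    refine ⟨a', n', ha', hn', ?_, hu⟩
    intro h3
    apply hK
    have h4 : (n : ℂ) * a' = n' * a := by exact_mod_cast h3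
    field_simp
    linear_combination -h4
  · have := val_local hZ0 le_rfl le_rfl (fun _ => rfl) (fun _ => rfl)
    rwa [div_self (lf_ne 1 le_rfl), one_mul] at this

end Pool.Agent.W574.RO
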