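import Pool.Agent.W574.RO.Defs
import Pool.Agent.W574.RO.One
import Pool.Agent.W574.RO.Equiv
import Pool.Agent.W574.SM.Chain

set_option autoImplicit false
set_option linter.unusedSectionVars false
set_option linter.unusedVariables false

/-! # The denominators of the motivic zeta functions of sums and products of ideals -/

namespace Pool.Agent.W574.RO

open MvPolynomial Pool.Agent.W574.MO Pool.Agent.W574.SM Pool.Agent.W574.LM Pool.Agent.W574.HS

variable {M : Type} [CommRing M] {L : Mˣ}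

theorem denRing_mono {K K' : ℕ → ℕ → Prop} (h : ∀ a n, 1 ≤ a → 1 ≤ n → K a n → K' a n)
    {Z : PowerSeries M} (hZ : Z ∈ DenRing L K) : Z ∈ DenRing L K' := by
  refine Subring.closure_mono (Set.union_subset_union_right _ ?_) hZ
  rintro u ⟨a, n, ha, hn, hK, hu⟩
  exact ⟨a, n, ha, hn, h a n ha hn hK, hu⟩

/-- the power of a variable -/
theorem forced_power (m : ℕ) (hm : 1 ≤ m) :
    Forced (fun _ : Fin 1 => (X 0 ^ m : MvPolynomial (Fin 1) ℂ)) (-((1 : ℕ) : ℂ) / m) := by
  intro b hb
  have h := rees_root (fun _ : Fin 1 => (X 0 ^ m : MvPolynomial (Fin 1) ℂ)) b hb 0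
    (fun i => MvPowerSeries.X i) 0 m 0 (by omega) 1 1 1 (by simp) (by simp) (by simp) ?_ 0
    (fun j => ?_) ?_ 1 (by simp) (fun t ht => absurd (Subsingleton.elim t 0) ht)
  · simpa using h
  · rw [pow_zero, one_mul, Matrix.det_fin_one, Matrix.of_apply]
    simp
  · rw [map_pow, aeval_X]
  · rw [map_pow, aeval_X, mul_one]

theorem tail_power (m : ℕ) (hm : 1 ≤ m) :
    tail 1 (PowerSeries.C (1 - ((L⁻¹ : Mˣ) : M)) * geo L m 1) =
      1 + PowerSeries.C ((L⁻¹ : Mˣ) : M) * PowerSeries.X *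
        (∑ i ∈ Finset.range m, PowerSeries.X ^ i) * geo L m 1 := by
  symm
  apply eq_tail
  have h1 := geom_sum_mul (PowerSeries.X : PowerSeries M) m
  have h2 := geo_mul L hm 1
  have h3 : (qq L m 1 : PowerSeries M) = PowerSeries.C (((L⁻¹ : Mˣ) : M)) * PowerSeries.X ^ m := by
    rw [qq, pow_one]
  rw [h3] at h2
  rw [map_sub, map_one]
  linear_combination (-PowerSeries.C ((L⁻¹ : Mˣ) : M) * PowerSeries.X * geo L m 1) * h1 +
    PowerSeries.X * h2

theorem plane_tail {r : ℕ} (f : Fin r → MvPolynomial (Fin 2) ℂ) (Z : PowerSeries M)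
    (hZ : PlaneVol L f Z) : tail 1 Z ∈ DenRing L (KF f) := by
  obtain ⟨u₀, r', h, m, w, S, ZP, hC, hP, htot, rfl⟩ := hZ
  have e : (1 : M) = ((L⁻¹ ^ 2 : Mˣ) : M) *
      (u₀ * 1 + ∑ i, w i * 1 + ∑ P ∈ S, (1 : M)) := by
    rw [mul_one, Finset.sum_congr rfl fun i _ => mul_one (w i), Finset.sum_const, nsmul_eq_mul,
      mul_one, htot, ← Units.val_pow_eq_pow_val, ← Units.val_mul, ← mul_pow, inv_mul_cancel,
      one_pow, Units.val_one]
  rw [e, tail_C_mul, tail_add, tail_add, tail_sum, tail_sum]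
  refine (DenRing L _).mul_mem (C_mem _) ((DenRing L _).add_mem ((DenRing L _).add_mem ?_ ?_) ?_)
  · rw [mul_one, tail_C]
    exact C_mem _
  · refine Subring.sum_mem _ fun i _ => ?_
    rw [tail_C_mul]
    refine (DenRing L _).mul_mem (C_mem _) (tail_mf_mem (m i) (hC i).2.1 ?_)
    intro b hb
    have := curve_root f b hb (h i) (m i) (hC i)
    rw [Nat.cast_one]
    exact this
  · exact Subring.sum_mem _ fun P hPS => point_forced L f P (ZP P) (hP P hPS)

/-- **The denominators of the motivic zeta functions of sums and products of ideals.** -/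
theorem built_main (A : Fam) (Z : PowerSeries M) (h : Built L A Z) :
    (∃ j, A.f j ≠ 0) ∧ tail 1 Z ∈ DenRing L (KF A.f) := by
  classical
  induction h with
  | power m hm =>
    refine ⟨⟨0, pow_ne_zero _ (X_ne_zero _)⟩, ?_⟩
    rw [tail_power m hm]
    exact (DenRing L _).add_mem (DenRing L _).one_mem ((DenRing L _).mul_mem
      ((DenRing L _).mul_mem ((DenRing L _).mul_mem (C_mem _) X_mem) (X_pow_sum_mem m))
      (geo_mem hm le_rfl (forced_power m hm)))
  | plane r f hf Z hZ => exact ⟨hf, plane_tail f Z hZ⟩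
  | sum A B Z W hA hB ihA ihB =>
    obtain ⟨⟨j, hj⟩, hZ⟩ := ihA
    obtain ⟨-, hW⟩ := ihB
    refine ⟨⟨Sum.inl j, ?_⟩, ?_⟩
    · change rename Sum.inl (A.f j) ≠ 0
      rw [Ne, map_eq_zero_iff _ (rename_injective _ Sum.inl_injective)]
      exact hj
    · rw [tail_min]
      refine had_mem hZ hW fun a n a' n' l ha hn hK ha' hn' hK' hl hal hal' => ?_
      have h1 := forced_sum A.f B.f _ _ hK hK'
      have h2 : (-(n : ℂ) / a) + (-(n' : ℂ) / a') =
          -((n * (l / a) + n' * (l / a') : ℕ) : ℂ) / l := by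
        obtain ⟨k, rfl⟩ := hal
        obtain ⟨k', hk'⟩ := hal'
        have e1 : a * k / a = k := Nat.mul_div_cancel_left k (by omega)
        have e2 : a * k / a' = k' := by rw [hk']; exact Nat.mul_div_cancel_left k' (by omega)
        rw [e1, e2]
        have ha0 : (a : ℂ) ≠ 0 := Nat.cast_ne_zero.2 (by omega)
        have ha0' : (a' : ℂ) ≠ 0 := Nat.cast_ne_zero.2 (by omega)
        have hk0 : ((a * k : ℕ) : ℂ) ≠ 0 := Nat.cast_ne_zero.2 (by omega)
        have hk1 : (a : ℂ) * k = a' * k' := by exact_mod_cast hk'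
        push_cast at hk0 ⊢
        rw [div_add_div _ _ ha0 ha0', div_eq_div_iff (mul_ne_zero ha0 ha0') hk0]
        linear_combination (-(a : ℂ) * n') * hk1
      rw [h2] at h1
      exact h1
  | mul A B Z W hA hB ihA ihB =>
    obtain ⟨⟨j, hj⟩, hZ⟩ := ihA
    obtain ⟨⟨k, hk⟩, hW⟩ := ihB
    refine ⟨⟨(j, k), ?_⟩, ?_⟩
    · change (rename Sum.inl (A.f j) * rename Sum.inr (B.f k) : MvPolynomial (A.σ ⊕ B.σ) ℂ) ≠ 0
      refine mul_ne_zero ?_ ?_
      · rw [Ne, map_eq_zero_iff _ (rename_injective _ Sum.inl_injective)]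
        exact hj
      · rw [Ne, map_eq_zero_iff _ (rename_injective _ Sum.inr_injective)]
        exact hk
    · refine tail_mul_mem (denRing_mono (fun a n _ _ h => ?_) hZ)
        (denRing_mono (fun a n _ _ h => ?_) hW)
      · exact fun b hb => h b (functionalEq_mul A.f B.f ⟨k, hk⟩ b hb)
      · exact fun b hb => h b (functionalEq_mul' A.f B.f ⟨j, hj⟩ b hb)

theorem built_ideal (A : Fam) (Z : PowerSeries M) (h : Built L A Z) (b : Polynomial ℂ)
    (hb : IsFunctionalEq A.f b) : Z ∈ DenRing L (RootPair b) :=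
  denRing_mono (fun _ _ _ _ h => h b hb) (mem_of_tail (built_main A Z h).2)

/-- the hypersurface `∑ y_j f_j` -/
theorem built_form (A : Fam) (Z : PowerSeries M) (h : Built L A Z) (b : Polynomial ℂ)
    (hb : Pool.Agent.H628R4.TP.IsBFunction (univ A.f) b) (c : M) :
    PowerSeries.C c * Z * geo L 1 1 ∈ DenRing L (RootPair b) := by
  classical
  obtain ⟨hne, hm⟩ := built_main A Z h
  have hb' : IsFunctionalEq A.f b := functionalEq_of_univ A.f b hb
  have hb1 : RootPair b 1 1 := by
    obtain ⟨P, hP⟩ := hb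
    have := minus_one (univ A.f) 1 (univ_ne_zero A.f hne) (univ_not_unit A.f) b P fun s => by
      rw [one_mul]
      exact hP s
    unfold RootPair
    rw [Nat.cast_one, div_one]
    exact this
  exact Subring.mul_mem _ (Subring.mul_mem _ (C_mem _)
    (denRing_mono (fun _ _ _ _ h => h b hb') (mem_of_tail hm))) (geo_mem le_rfl le_rfl hb1)

end Pool.Agent.W574.RO
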