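import Pool.Agent.W574.RO.Tensor

set_option autoImplicit false
set_option linter.unusedSectionVars false

/-! # Functional equations of sums of ideals in disjoint variables -/

namespace Pool.Agent.W574.RO

open MvPolynomial Pool.Agent.W574.SM Pool.Agent.W574.HS

section

variable {σ τ ι κ : Type} [Fintype ι] [Fintype κ] [DecidableEq ι] [DecidableEq κ]

/-- `α` is a root of all polynomials which satisfy a functional equation of the `f_j` -/
def Forced (f : ι → MvPolynomial σ ℂ) (α : ℂ) : Prop :=
  ∀ b : Polynomial ℂ, IsFunctionalEq f b → b.eval α = 0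

theorem mulb_add (b b' : Polynomial ℂ) (F : AF σ ι) : mulb (b + b') F = mulb b F + mulb b' F := by
  funext s
  rw [mulb, Pi.add_apply, mulb, mulb, Polynomial.eval_add, map_add, add_mul]

theorem mulb_smul (a : ℂ) (b : Polynomial ℂ) (F : AF σ ι) : mulb (a • b) F = a • mulb b F := by
  funext s
  rw [mulb, Pi.smul_apply, mulb, Polynomial.eval_smul, smul_eq_mul, map_mul, mul_assoc, C_mul']

theorem mulb_C (a : ℂ) (F : AF σ ι) : mulb (Polynomial.C a) F = a • F := by
  funext s
  rw [mulb, Pi.smul_apply, Polynomial.eval_C, C_mul']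

/-- the linear map `b ↦ b(∑ s) F` -/
noncomputable def mulbL (F : AF σ ι) : Polynomial ℂ →ₗ[ℂ] AF σ ι where
  toFun b := mulb b F
  map_add' b b' := mulb_add b b' F
  map_smul' a b := mulb_smul a b F

/-- a functional which detects the root `β` -/
theorem exists_functional (g : κ → MvPolynomial τ ℂ) (β : ℂ) (hβ : Forced g β) :
    ∃ φ : AF τ κ →ₗ[ℂ] ℂ, (∀ v ∈ V g 1, φ v = 0) ∧
      ∀ b : Polynomial ℂ, φ (mulb b (G0 g)) = b.eval β := by
  classical
  set W : Submodule ℂ (AF τ κ) := V g 1 ⊔
    (Submodule.map (mulbL (G0 g)) (LinearMap.ker (Polynomial.leval β))) with hW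
  have h1 : G0 g ∉ W := by
    intro h
    obtain ⟨v, hv, w, hw, e⟩ := Submodule.mem_sup.1 h
    obtain ⟨q, hq, rfl⟩ := hw
    have h2 : mulb (1 - q) (G0 g) ∈ V g 1 := by
      have h3 : mulb (1 - q) (G0 g) = v := by
        have h4 := mulb_add 1 (-q) (G0 g)
        have h5 := mulb_smul (-1) q (G0 g)
        rw [neg_one_smul, neg_one_smul] at h5
        have h6 := mulb_C 1 (G0 g)
        rw [one_smul, map_one] at h6
        rw [sub_eq_add_neg, h4, h5, h6]
        have h7 : v = G0 g - mulb q (G0 g) := eq_sub_of_add_eq e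
        rw [h7, sub_eq_add_neg]
      rw [h3]
      exact hv
    have h3 := hβ _ ((functionalEq_iff g _).2 h2)
    have hq0 : q.eval β = 0 := hq
    rw [Polynomial.eval_sub, hq0, Polynomial.eval_one, sub_zero] at h3
    exact one_ne_zero h3
  obtain ⟨ψ, hψ, hle⟩ := Submodule.exists_le_ker_of_notMem h1
  refine ⟨(ψ (G0 g))⁻¹ • ψ, fun v hv => ?_, fun b => ?_⟩
  · rw [LinearMap.smul_apply, LinearMap.mem_ker.1 (hle (Submodule.mem_sup_left hv)), smul_zero]
  · have h2 : mulb b (G0 g) = b.eval β • G0 g + mulb (b - Polynomial.C (b.eval β)) (G0 g) := by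
      rw [← mulb_C, ← mulb_add]
      congr 1
      ring
    have h3 : ψ (mulb (b - Polynomial.C (b.eval β)) (G0 g)) = 0 := by
      refine LinearMap.mem_ker.1 (hle (Submodule.mem_sup_right ⟨_, ?_, rfl⟩))
      change (b - Polynomial.C (b.eval β)).eval β = 0
      rw [Polynomial.eval_sub, Polynomial.eval_C, sub_self]
    rw [h2, map_add, LinearMap.smul_apply, LinearMap.smul_apply, h3, smul_zero, add_zero, map_smul,
      smul_eq_mul, smul_eq_mul]
    field_simp

/-- **Functional equations of a sum of ideals.** -/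
theorem functionalEq_sum (f : ι → MvPolynomial σ ℂ) (g : κ → MvPolynomial τ ℂ) (β : ℂ)
    (hβ : Forced g β) (b : Polynomial ℂ) (hb : IsFunctionalEq (sumf f g) b) :
    IsFunctionalEq f (b.comp (Polynomial.X + Polynomial.C β)) := by
  classical
  obtain ⟨φ, hφ1, hφ2⟩ := exists_functional g β hβ
  obtain ⟨w, hw, e⟩ := slice_V f g φ hφ1 _ ((functionalEq_iff _ _).1 hb)
  rw [functionalEq_iff]
  have : mulb (b.comp (Polynomial.X + Polynomial.C β)) (G0 f) = w := by
    funext s
    ext m
    rw [← e, mulb, coeff_C_mul]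
    change _ = φ fun t => cof m (C (b.eval ((∑ j, Sum.elim s t j : ℕ) : ℂ)) *
      G0 (sumf f g) (Sum.elim s t))
    have h1 : (fun t : κ → ℕ => cof m (C (b.eval ((∑ j, Sum.elim s t j : ℕ) : ℂ)) *
        G0 (sumf f g) (Sum.elim s t))) = coeff m (G0 f s) •
        mulb (b.comp (Polynomial.X + Polynomial.C ((∑ j, s j : ℕ) : ℂ))) (G0 g) := by
      funext t
      rw [C_mul', map_smul, G0_sumf]
      change _ • cof m (rename Sum.inl (G0 f s) * rename Sum.inr (G0 g t)) = _
      rw [cof_mul, Pi.smul_apply, mulb, C_mul', smul_comm, Polynomial.eval_comp,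
        Fintype.sum_sum_type]
      simp only [Sum.elim_inl, Sum.elim_inr, Polynomial.eval_add, Polynomial.eval_X,
        Polynomial.eval_C, Nat.cast_add]
      rw [add_comm]
    rw [h1, map_smul, hφ2, Polynomial.eval_comp, Polynomial.eval_comp, smul_eq_mul, mul_comm]
    simp only [Polynomial.eval_add, Polynomial.eval_X, Polynomial.eval_C]
    rw [add_comm β]
  rw [this]
  exact hw

theorem forced_sum (f : ι → MvPolynomial σ ℂ) (g : κ → MvPolynomial τ ℂ) (α β : ℂ)
    (hα : Forced f α) (hβ : Forced g β) : Forced (sumf f g) (α + β) := by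
  intro b hb
  have h := hα _ (functionalEq_sum f g β hβ b hb)
  rw [Polynomial.eval_comp] at h
  simpa using h

end

end Pool.Agent.W574.RO
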