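import Pool.Agent.W574.RO.Had
import Pool.Agent.W574.RO.Defs

set_option autoImplicit false
set_option linter.unusedSectionVars false
set_option linter.unusedVariables false

/-! # The series of the volumes of the sets `ord ≥ e` -/

namespace Pool.Agent.W574.RO

open PowerSeries Pool.Agent.W574.MO

variable {M : Type} [CommRing M]

/-- `∑_e (c - ∑_{k < e} z_k) T^e` for `Z = ∑ z_e T^e` -/
noncomputable def tail (c : M) (Z : M⟦X⟧) : M⟦X⟧ :=
  PowerSeries.mk fun e => c - ∑ k ∈ Finset.range e, coeff k Z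

theorem coeff_tail (c : M) (Z : M⟦X⟧) (e : ℕ) :
    coeff e (tail c Z) = c - ∑ k ∈ Finset.range e, coeff k Z := coeff_mk _ _

theorem tail_eq (c : M) (Z : M⟦X⟧) : (1 - X) * tail c Z = C c - X * Z := by
  ext e
  rw [sub_mul, one_mul, map_sub, map_sub, coeff_tail]
  rcases e with _ | e
  · rw [Finset.range_zero, Finset.sum_empty, coeff_zero_X_mul, coeff_zero_X_mul, coeff_C, if_pos rfl,
      sub_zero]
  · rw [coeff_succ_X_mul, coeff_succ_X_mul, coeff_tail, Finset.sum_range_succ, coeff_C,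
      if_neg (Nat.succ_ne_zero e)]
    ring

theorem one_sub_X_cancel {A B : M⟦X⟧} (h : (1 - X) * A = (1 - X) * B) : A = B := by
  have h1 : (1 - X : M⟦X⟧) * (PowerSeries.mk fun _ => (1 : M)) = 1 := by
    rw [mul_comm]
    exact PowerSeries.mk_one_mul_one_sub_eq_one M
  calc A = (1 - X) * (PowerSeries.mk fun _ => (1 : M)) * A := by rw [h1, one_mul]
    _ = (PowerSeries.mk fun _ => (1 : M)) * ((1 - X) * A) := by ring
    _ = (1 - X) * (PowerSeries.mk fun _ => (1 : M)) * B := by rw [h]; ring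
    _ = B := by rw [h1, one_mul]

theorem eq_tail {c : M} {Z T : M⟦X⟧} (h : (1 - X) * T = C c - X * Z) : T = tail c Z :=
  one_sub_X_cancel (h.trans (tail_eq c Z).symm)

theorem tail_add (c c' : M) (Z Z' : M⟦X⟧) : tail (c + c') (Z + Z') = tail c Z + tail c' Z' := by
  symm
  apply eq_tail
  rw [mul_add, tail_eq, tail_eq, map_add]
  ring

theorem tail_sum {α : Type} (s : Finset α) (c : α → M) (Z : α → M⟦X⟧) :
    tail (∑ i ∈ s, c i) (∑ i ∈ s, Z i) = ∑ i ∈ s, tail (c i) (Z i) := by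
  classical
  induction s using Finset.induction_on with
  | empty =>
    rw [Finset.sum_empty, Finset.sum_empty, Finset.sum_empty]
    symm
    apply eq_tail
    simp
  | insert i s hi ih => rw [Finset.sum_insert hi, Finset.sum_insert hi, Finset.sum_insert hi,
      tail_add, ih]

theorem tail_C_mul (m c : M) (Z : M⟦X⟧) : tail (m * c) (C m * Z) = C m * tail c Z := by
  symm
  apply eq_tail
  have := tail_eq c Z
  rw [map_mul]
  linear_combination C m * this

theorem tail_C (m : M) : tail m (C m : M⟦X⟧) = C m := by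
  symm
  apply eq_tail
  ring

variable {L : Mˣ} {K : ℕ → ℕ → Prop}

/-- the series of a smooth curve -/
theorem tail_mf (m : ℕ) (hm : 1 ≤ m) :
    tail 1 (mf L m 1 : M⟦X⟧) = 1 + X * (∑ i ∈ Finset.range m, X ^ i) * geo L m 1 := by
  symm
  apply eq_tail
  have h1 := geom_sum_mul (X : M⟦X⟧) m
  have h2 := geo_mul L hm 1
  rw [mf_pos L hm, map_one]
  have h3 : (qq L m 1 : M⟦X⟧) = C (((L⁻¹ : Mˣ) : M)) * X ^ m := by rw [qq, pow_one]
  have h4 : (C ((L : M) - 1) : M⟦X⟧) * C (((L⁻¹ : Mˣ) : M)) = 1 - C (((L⁻¹ : Mˣ) : M)) := by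
    rw [← map_mul, sub_mul, Units.mul_inv, one_mul, map_sub, map_one]
  rw [h3] at h2 ⊢
  linear_combination (-X * geo L m 1) * h1 + X * h2 + (X * X ^ m * geo L m 1) * h4

theorem X_pow_sum_mem (m : ℕ) : (∑ i ∈ Finset.range m, (X : M⟦X⟧) ^ i) ∈ DenRing L K :=
  Subring.sum_mem _ fun i _ => (DenRing L K).pow_mem X_mem i

theorem tail_mf_mem (m : ℕ) (hm : 1 ≤ m) (hK : K m 1) :
    tail 1 (mf L m 1 : M⟦X⟧) ∈ DenRing L K := by
  rw [tail_mf m hm]
  exact (DenRing L K).add_mem (DenRing L K).one_mem ((DenRing L K).mul_mem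
    ((DenRing L K).mul_mem X_mem (X_pow_sum_mem m)) (geo_mem hm le_rfl hK))

/-- the volumes of `ord I = e` from the volumes of `ord I ≥ e` -/
theorem mem_of_tail {c : M} {Z : M⟦X⟧} (h : tail c Z ∈ DenRing L K) : Z ∈ DenRing L K := by
  obtain ⟨s, hs, h1⟩ := exists_dp h
  refine mem_of_dp s hs ?_
  have h2 := tail_eq c Z
  have h3 : X * (dp L s * Z) = C c * dp L s + (C (-1) + X) * (dp L s * tail c Z) := by
    rw [map_neg, map_one]
    linear_combination (dp L s) * h2
  obtain ⟨N, hN⟩ : IsPol (X * (dp L s * Z)) := by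
    rw [h3]
    exact ((isPol_C c).mul (isPol_dp s)).add (((isPol_C _).add isPol_X).mul h1)
  refine ⟨N, fun e he => ?_⟩
  have := hN (e + 1) (by omega)
  rwa [coeff_succ_X_mul] at this

/-- the product -/
theorem tail_mul (Z W : M⟦X⟧) : tail 1 (Z * W) = tail 1 W + X * W * (tail 1 Z - Z) := by
  symm
  apply eq_tail
  have h1 := tail_eq 1 Z
  have h2 := tail_eq 1 W
  rw [map_one] at h1 h2 ⊢
  linear_combination h2 + X * W * h1

theorem tail_mul_mem {Z W : M⟦X⟧} (hZ : tail 1 Z ∈ DenRing L K) (hW : tail 1 W ∈ DenRing L K) :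
    tail 1 (Z * W) ∈ DenRing L K := by
  rw [tail_mul]
  exact (DenRing L K).add_mem hW ((DenRing L K).mul_mem ((DenRing L K).mul_mem X_mem
    (mem_of_tail hW)) ((DenRing L K).sub_mem hZ (mem_of_tail hZ)))

theorem tail_min (Z W : M⟦X⟧) : tail 1 (sumSeries Z W) = had (tail 1 Z) (tail 1 W) := by
  ext e
  rw [coeff_tail, coeff_had, coeff_tail, coeff_tail]
  have : ∀ e : ℕ, ∑ k ∈ Finset.range e, coeff k (sumSeries Z W) = 1 -
      (1 - ∑ k ∈ Finset.range e, coeff k Z) * (1 - ∑ k ∈ Finset.range e, coeff k W) := by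
    intro e
    induction e with
    | zero => simp
    | succ e ih =>
      rw [Finset.sum_range_succ, ih, sumSeries, coeff_mk]
      ring
  rw [this]
  ring

end Pool.Agent.W574.RO
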