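import Pool.Agent.W574.RO.V

set_option autoImplicit false
set_option linter.unusedSectionVars false

/-! # Ideals in disjoint variables: splitting of the operators -/

namespace Pool.Agent.W574.RO

open MvPolynomial Pool.Agent.W574.SM Pool.Agent.W574.HS

section

variable {σ τ ι κ : Type} [Fintype ι] [Fintype κ] [DecidableEq ι] [DecidableEq κ]

theorem pderiv_inl_rename (i : σ) (p : MvPolynomial σ ℂ) :
    pderiv (Sum.inl i : σ ⊕ τ) (rename Sum.inl p) = rename Sum.inl (pderiv i p) := by
  classical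
  induction p using MvPolynomial.induction_on with
  | C a => simp
  | add p q hp hq => simp only [map_add, hp, hq]
  | mul_X p j hp =>
    rw [map_mul, rename_X, Derivation.leibniz, Derivation.leibniz, hp, map_add, smul_eq_mul,
      smul_eq_mul, smul_eq_mul, smul_eq_mul, map_mul, map_mul, rename_X, pderiv_X, pderiv_X]
    congr 2
    by_cases h : i = j
    · subst h
      simp
    · rw [Pi.single_eq_of_ne (fun h' => h (Sum.inl_injective h').symm),
        Pi.single_eq_of_ne (Ne.symm h), map_zero]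

theorem pderiv_inr_rename (i : τ) (p : MvPolynomial τ ℂ) :
    pderiv (Sum.inr i : σ ⊕ τ) (rename Sum.inr p) = rename Sum.inr (pderiv i p) := by
  classical
  induction p using MvPolynomial.induction_on with
  | C a => simp
  | add p q hp hq => simp only [map_add, hp, hq]
  | mul_X p j hp =>
    rw [map_mul, rename_X, Derivation.leibniz, Derivation.leibniz, hp, map_add, smul_eq_mul,
      smul_eq_mul, smul_eq_mul, smul_eq_mul, map_mul, map_mul, rename_X, pderiv_X, pderiv_X]
    congr 2
    by_cases h : i = j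
    · subst h
      simp
    · rw [Pi.single_eq_of_ne (fun h' => h (Sum.inr_injective h').symm),
        Pi.single_eq_of_ne (Ne.symm h), map_zero]

theorem pderiv_inl_inr (i : σ) (p : MvPolynomial τ ℂ) :
    pderiv (Sum.inl i : σ ⊕ τ) (rename Sum.inr p) = 0 := by
  classical
  induction p using MvPolynomial.induction_on with
  | C a => simp
  | add p q hp hq => simp only [map_add, hp, hq, add_zero]
  | mul_X p j hp =>
    rw [map_mul, rename_X, Derivation.leibniz, hp, smul_zero, add_zero, pderiv_X,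
      Pi.single_eq_of_ne (by simp), smul_zero]

theorem pderiv_inr_inl (i : τ) (p : MvPolynomial σ ℂ) :
    pderiv (Sum.inr i : σ ⊕ τ) (rename Sum.inl p) = 0 := by
  classical
  induction p using MvPolynomial.induction_on with
  | C a => simp
  | add p q hp hq => simp only [map_add, hp, hq, add_zero]
  | mul_X p j hp =>
    rw [map_mul, rename_X, Derivation.leibniz, hp, smul_zero, add_zero, pderiv_X,
      Pi.single_eq_of_ne (by simp), smul_zero]

/-- the splitting property of operators on polynomials in two sets of variables -/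
def Splits (R : Module.End ℂ (MvPolynomial (σ ⊕ τ) ℂ)) : Prop :=
  ∃ (m : ℕ) (Q : Fin m → weyl σ) (Q' : Fin m → weyl τ), ∀ (p : MvPolynomial σ ℂ)
    (q : MvPolynomial τ ℂ), R (rename Sum.inl p * rename Sum.inr q) =
      ∑ i, rename Sum.inl ((Q i : Module.End ℂ (MvPolynomial σ ℂ)) p) *
        rename Sum.inr ((Q' i : Module.End ℂ (MvPolynomial τ ℂ)) q)

theorem splits_of {K : Type} [Fintype K] (R : Module.End ℂ (MvPolynomial (σ ⊕ τ) ℂ))
    (Q : K → weyl σ) (Q' : K → weyl τ) (h : ∀ (p : MvPolynomial σ ℂ)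
    (q : MvPolynomial τ ℂ), R (rename Sum.inl p * rename Sum.inr q) =
      ∑ i, rename Sum.inl ((Q i : Module.End ℂ (MvPolynomial σ ℂ)) p) *
        rename Sum.inr ((Q' i : Module.End ℂ (MvPolynomial τ ℂ)) q)) : Splits R := by
  refine ⟨Fintype.card K, fun i => Q ((Fintype.equivFin K).symm i),
    fun i => Q' ((Fintype.equivFin K).symm i), fun p q => ?_⟩
  rw [h]
  exact ((Fintype.equivFin K).symm.sum_comp (fun i =>
    rename Sum.inl ((Q i : Module.End ℂ (MvPolynomial σ ℂ)) p) *
        rename Sum.inr ((Q' i : Module.End ℂ (MvPolynomial τ ℂ)) q))).symm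

theorem weyl_splits (R : Module.End ℂ (MvPolynomial (σ ⊕ τ) ℂ)) (hR : R ∈ weyl (σ ⊕ τ)) :
    Splits R := by
  classical
  induction hR using Algebra.adjoin_induction with
  | mem R h =>
    rcases h with ⟨i, rfl⟩ | ⟨i, rfl⟩
    · rcases i with i | i
      · refine splits_of (K := Unit) _ (fun _ => ⟨_, Algebra.subset_adjoin (Or.inl ⟨i, rfl⟩)⟩)
          (fun _ => 1) fun p q => ?_
        rw [Finset.univ_unique, Finset.sum_singleton]
        change X (Sum.inl i) * (rename Sum.inl p * rename Sum.inr q) =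
          rename Sum.inl (X i * p) * rename Sum.inr q
        rw [map_mul, rename_X, mul_assoc]
      · refine splits_of (K := Unit) _ (fun _ => 1)
          (fun _ => ⟨_, Algebra.subset_adjoin (Or.inl ⟨i, rfl⟩)⟩) fun p q => ?_
        rw [Finset.univ_unique, Finset.sum_singleton]
        change X (Sum.inr i) * (rename Sum.inl p * rename Sum.inr q) =
          rename Sum.inl p * rename Sum.inr (X i * q)
        rw [map_mul, rename_X]
        ring
    · rcases i with i | i
      · refine splits_of (K := Unit) _ (fun _ => ⟨_, Algebra.subset_adjoin (Or.inr ⟨i, rfl⟩)⟩)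
          (fun _ => 1) fun p q => ?_
        rw [Finset.univ_unique, Finset.sum_singleton]
        change pderiv (Sum.inl i) (rename Sum.inl p * rename Sum.inr q) =
          rename Sum.inl (pderiv i p) * rename Sum.inr q
        rw [Derivation.leibniz, pderiv_inl_inr, smul_zero, zero_add, pderiv_inl_rename,
          smul_eq_mul, mul_comm]
      · refine splits_of (K := Unit) _ (fun _ => 1)
          (fun _ => ⟨_, Algebra.subset_adjoin (Or.inr ⟨i, rfl⟩)⟩) fun p q => ?_
        rw [Finset.univ_unique, Finset.sum_singleton]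
        change pderiv (Sum.inr i) (rename Sum.inl p * rename Sum.inr q) =
          rename Sum.inl p * rename Sum.inr (pderiv i q)
        rw [Derivation.leibniz, pderiv_inr_inl, smul_zero, add_zero, pderiv_inr_rename,
          smul_eq_mul]
  | algebraMap r =>
    refine splits_of (K := Unit) _ (fun _ => algebraMap ℂ _ r) (fun _ => 1) fun p q => ?_
    rw [Finset.univ_unique, Finset.sum_singleton]
    change r • (rename Sum.inl p * rename Sum.inr q) =
      rename Sum.inl (r • p) * rename Sum.inr q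
    rw [map_smul, smul_mul_assoc]
  | add R R' _ _ h h' =>
    obtain ⟨m, Q, Q', e⟩ := h
    obtain ⟨m', P, P', e'⟩ := h'
    refine splits_of (K := Fin m ⊕ Fin m') _ (Sum.elim Q P) (Sum.elim Q' P') fun p q => ?_
    rw [LinearMap.add_apply, e, e', Fintype.sum_sum_type]
    rfl
  | mul R R' _ _ h h' =>
    obtain ⟨m, Q, Q', e⟩ := h
    obtain ⟨m', P, P', e'⟩ := h'
    refine splits_of (K := Fin m' × Fin m) _ (fun i => Q i.2 * P i.1) (fun i => Q' i.2 * P' i.1)
      fun p q => ?_
    rw [Module.End.mul_apply, e', map_sum, Fintype.sum_prod_type]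
    refine Finset.sum_congr rfl fun i _ => ?_
    rw [e]
    rfl

/-- the generators of the sum of two ideals in disjoint variables -/
noncomputable def sumf (f : ι → MvPolynomial σ ℂ) (g : κ → MvPolynomial τ ℂ) :
    ι ⊕ κ → MvPolynomial (σ ⊕ τ) ℂ :=
  Sum.elim (fun j => rename Sum.inl (f j)) (fun k => rename Sum.inr (g k))

/-- a pure tensor -/
noncomputable def pure (u : AF σ ι) (v : AF τ κ) : AF (σ ⊕ τ) (ι ⊕ κ) :=
  fun s => rename Sum.inl (u fun j => s (Sum.inl j)) * rename Sum.inr (v fun k => s (Sum.inr k))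

theorem gterm_sumf (f : ι → MvPolynomial σ ℂ) (g : κ → MvPolynomial τ ℂ) (c : ι ⊕ κ → ℤ)
    (s : ι ⊕ κ → ℕ) :
    gterm (sumf f g) c s = rename Sum.inl (gterm f (fun j => c (Sum.inl j))
      (fun j => s (Sum.inl j))) * rename Sum.inr (gterm g (fun k => c (Sum.inr k))
      (fun k => s (Sum.inr k))) := by
  rw [gterm, gterm, gterm, map_mul, map_mul, rename_C, rename_C, map_prod, map_prod,
    Fintype.prod_sum_type, Fintype.prod_sum_type, Nat.cast_mul, map_mul]
  simp only [sumf, Sum.elim_inl, Sum.elim_inr, map_pow]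
  ring

theorem G0_sumf (f : ι → MvPolynomial σ ℂ) (g : κ → MvPolynomial τ ℂ) :
    G0 (sumf f g) = pure (G0 f) (G0 g) := by
  funext s
  rw [G0, pure, G0, G0, map_prod, map_prod, Fintype.prod_sum_type]
  simp only [sumf, Sum.elim_inl, Sum.elim_inr, map_pow]

/-- the span of the pure tensors of degree `n` -/
noncomputable def TT (f : ι → MvPolynomial σ ℂ) (g : κ → MvPolynomial τ ℂ) (n : ℤ) :
    Submodule ℂ (AF (σ ⊕ τ) (ι ⊕ κ)) :=
  Submodule.span ℂ {H | ∃ a a' u v, a + a' = n ∧ u ∈ V f a ∧ v ∈ V g a' ∧ H = pure u v}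

theorem V_le_TT (f : ι → MvPolynomial σ ℂ) (g : κ → MvPolynomial τ ℂ) (n : ℤ) :
    V (sumf f g) n ≤ TT f g n := by
  classical
  refine Submodule.span_le.2 ?_
  rintro F ⟨P, c, hc, rfl⟩
  choose m Q Q' hQ using fun β : (ι ⊕ κ) →₀ ℕ => weyl_splits (P β).1 (P β).2
  have key : gen (sumf f g) P c = ∑ β ∈ P.support, ∑ i : Fin (m β),
      pure (gen f (Finsupp.single (Finsupp.equivFunOnFinite.symm fun j => β (Sum.inl j)) (Q β i))
        (fun j => c (Sum.inl j)))
      (gen g (Finsupp.single (Finsupp.equivFunOnFinite.symm fun k => β (Sum.inr k)) (Q' β i))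
        (fun k => c (Sum.inr k))) := by
    funext s
    rw [gen, applyAt, Finsupp.sum, Finset.sum_apply]
    refine Finset.sum_congr rfl fun β _ => ?_
    rw [Finset.sum_apply, gterm_sumf]
    have := hQ β (gterm f (fun j => c (Sum.inl j)) (fun j => s (Sum.inl j)))
      (gterm g (fun k => c (Sum.inr k)) (fun k => s (Sum.inr k)))
    rw [this, Finset.smul_sum]
    refine Finset.sum_congr rfl fun i _ => ?_
    rw [pure, gen, gen, applyAt_single, applyAt_single, map_smul, map_smul, smul_mul_smul_comm,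
      Fintype.prod_sum_type]
    rfl
  rw [key]
  refine Submodule.sum_mem _ fun β _ => Submodule.sum_mem _ fun i _ => Submodule.subset_span ?_
  refine ⟨_, _, _, _, ?_, gen_mem f _ _ rfl, gen_mem g _ _ rfl, rfl⟩
  rw [← hc, Fintype.sum_sum_type]

/-- the coefficient of a monomial in the first variables -/
noncomputable def cof (m : σ →₀ ℕ) : MvPolynomial (σ ⊕ τ) ℂ →ₗ[ℂ] MvPolynomial τ ℂ where
  toFun p := coeff m (sumAlgEquiv ℂ σ τ p)
  map_add' p q := by rw [map_add, coeff_add]
  map_smul' a p := by rw [map_smul, coeff_smul, RingHom.id_apply]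

theorem sumAlg_inl (p : MvPolynomial σ ℂ) :
    sumAlgEquiv ℂ σ τ (rename Sum.inl p) = map (C : ℂ →+* MvPolynomial τ ℂ) p := by
  induction p using MvPolynomial.induction_on with
  | C a => simp
  | add p q hp hq => simp only [map_add, hp, hq]
  | mul_X p j hp => simp only [map_mul, hp, rename_X, map_X, sumAlgEquiv_X_inl]

theorem sumAlg_inr (q : MvPolynomial τ ℂ) :
    sumAlgEquiv ℂ σ τ (rename Sum.inr q) = C q := by
  induction q using MvPolynomial.induction_on with
  | C a => simp
  | add p q hp hq => simp only [map_add, hp, hq]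
  | mul_X p j hp => simp only [map_mul, hp, rename_X, sumAlgEquiv_X_inr]

theorem cof_mul (m : σ →₀ ℕ) (p : MvPolynomial σ ℂ) (q : MvPolynomial τ ℂ) :
    cof m (rename Sum.inl p * rename Sum.inr q) = coeff m p • q := by
  change coeff m (sumAlgEquiv ℂ σ τ (rename Sum.inl p * rename Sum.inr q)) = _
  rw [map_mul, sumAlg_inl, sumAlg_inr, mul_comm, coeff_C_mul, coeff_map, mul_comm, C_mul']

/-- the slices of a function -/
noncomputable def slice (φ : AF τ κ →ₗ[ℂ] ℂ) (m : σ →₀ ℕ) (s : ι → ℕ) :
    AF (σ ⊕ τ) (ι ⊕ κ) →ₗ[ℂ] ℂ where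
  toFun H := φ fun t => cof m (H (Sum.elim s t))
  map_add' H H' := by
    rw [← map_add]
    congr 1
    funext t
    rw [Pi.add_apply, map_add]
    rfl
  map_smul' a H := by
    rw [RingHom.id_apply, ← map_smul]
    congr 1
    funext t
    rw [Pi.smul_apply, map_smul]
    rfl

theorem slice_pure (φ : AF τ κ →ₗ[ℂ] ℂ) (m : σ →₀ ℕ) (s : ι → ℕ) (u : AF σ ι) (v : AF τ κ) :
    slice φ m s (pure u v) = coeff m (u s) * φ v := by
  change φ (fun t => cof m (rename Sum.inl (u s) * rename Sum.inr (v t))) = _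
  simp only [cof_mul]
  exact map_smul φ (coeff m (u s)) v

/-- slices of the functions in the first step of the filtration -/
theorem slice_V (f : ι → MvPolynomial σ ℂ) (g : κ → MvPolynomial τ ℂ) (φ : AF τ κ →ₗ[ℂ] ℂ)
    (hφ : ∀ v ∈ V g 1, φ v = 0) (H : AF (σ ⊕ τ) (ι ⊕ κ)) (hH : H ∈ V (sumf f g) 1) :
    ∃ w ∈ V f 1, ∀ m s, slice φ m s H = coeff m (w s) := by
  have h := V_le_TT f g 1 hH
  clear hH
  induction h using Submodule.span_induction with
  | mem H h =>
    obtain ⟨a, a', u, v, ha, hu, hv, rfl⟩ := h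
    by_cases h1 : 1 ≤ a'
    · refine ⟨0, Submodule.zero_mem _, fun m s => ?_⟩
      rw [slice_pure, hφ v (V_le g a' h1 hv), mul_zero]
      rfl
    · refine ⟨φ v • u, Submodule.smul_mem _ _ (V_le f a (by omega) hu), fun m s => ?_⟩
      rw [slice_pure, Pi.smul_apply, coeff_smul, smul_eq_mul, mul_comm]
  | zero => exact ⟨0, Submodule.zero_mem _, fun m s => by rw [map_zero]; rfl⟩
  | add H H' _ _ h h' =>
    obtain ⟨w, hw, e⟩ := h
    obtain ⟨w', hw', e'⟩ := h'
    exact ⟨w + w', Submodule.add_mem _ hw hw', fun m s => by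
      rw [map_add, e, e', Pi.add_apply, coeff_add]⟩
  | smul a H _ h =>
    obtain ⟨w, hw, e⟩ := h
    exact ⟨a • w, Submodule.smul_mem _ _ hw, fun m s => by
      rw [map_smul, e, Pi.smul_apply, coeff_smul]⟩

end

end Pool.Agent.W574.RO
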