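import Pool.Agent.W574.HS.Conv

set_option autoImplicit false
set_option linter.unusedSectionVars false

/-! # The filtration of the functions `s ↦ ∑ P(s) ∏ f_j ^ (s_j + c_j)` -/

namespace Pool.Agent.W574.RO

open MvPolynomial Pool.Agent.W574.SM Pool.Agent.W574.HS

/-- functions of the exponents with polynomial values -/
abbrev AF (σ ι : Type) : Type := (ι → ℕ) → MvPolynomial σ ℂ

section

variable {σ ι : Type} [Fintype ι]

/-- `∏_{c_j < 0} binom(s_j, -c_j) ∏ f_j ^ (s_j + c_j)` -/
noncomputable def gterm (f : ι → MvPolynomial σ ℂ) (c : ι → ℤ) (s : ι → ℕ) : MvPolynomial σ ℂ :=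
  C ((∏ j, (if c j < 0 then (s j).choose (-c j).toNat else 1) : ℕ) : ℂ) *
    ∏ j, f j ^ ((s j : ℤ) + c j).toNat

/-- `P_c ∏_{c_j < 0} binom(s_j, -c_j) ∏ f_j ^ (s_j + c_j)` as a function of `s` -/
noncomputable def gen (f : ι → MvPolynomial σ ℂ) (P : (ι →₀ ℕ) →₀ weyl σ) (c : ι → ℤ) :
    AF σ ι := fun s => applyAt P s (gterm f c s)

/-- the step `a` of the filtration -/
noncomputable def V (f : ι → MvPolynomial σ ℂ) (a : ℤ) : Submodule ℂ (AF σ ι) :=
  Submodule.span ℂ {F | ∃ P c, ∑ j, c j = a ∧ F = gen f P c}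

theorem gen_mem (f : ι → MvPolynomial σ ℂ) (P : (ι →₀ ℕ) →₀ weyl σ) (c : ι → ℤ) {a : ℤ}
    (hc : ∑ j, c j = a) : gen f P c ∈ V f a :=
  Submodule.subset_span ⟨P, c, hc, rfl⟩

/-- the function `s ↦ ∏ f_j ^ s_j` -/
noncomputable def G0 (f : ι → MvPolynomial σ ℂ) : AF σ ι := fun s => ∏ j, f j ^ s j

/-- multiplication by a polynomial in `∑ s_j` -/
noncomputable def mulb (b : Polynomial ℂ) (F : AF σ ι) : AF σ ι :=
  fun s => C (b.eval ((∑ j, s j : ℕ) : ℂ)) * F s

theorem applyAt_smul (P : (ι →₀ ℕ) →₀ weyl σ) (a : ℂ) (s : ι → ℕ) (g : MvPolynomial σ ℂ) :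
    applyAt (a • P) s g = a • applyAt P s g := by
  classical
  unfold applyAt
  rw [Finsupp.sum_smul_index' (fun β => by simp), Finsupp.smul_sum]
  refine Finsupp.sum_congr fun β _ => ?_
  rw [smul_comm]
  rfl

/-- `F` is a sum of terms with different `c` -/
def Std (f : ι → MvPolynomial σ ℂ) (a : ℤ) (F : AF σ ι) : Prop :=
  ∃ (S : Finset (ι → ℤ)) (P : (ι → ℤ) → ((ι →₀ ℕ) →₀ weyl σ)),
    (∀ c ∈ S, ∑ j, c j = a) ∧ ∀ s, F s = ∑ c ∈ S, gen f (P c) c s

theorem std_of_mem [DecidableEq ι] (f : ι → MvPolynomial σ ℂ) (a : ℤ) (F : AF σ ι)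
    (hF : F ∈ V f a) : Std f a F := by
  classical
  induction hF using Submodule.span_induction with
  | mem F h =>
    obtain ⟨P, c, hc, rfl⟩ := h
    refine ⟨{c}, fun _ => P, fun c' h => ?_, fun s => ?_⟩
    · rw [Finset.mem_singleton] at h
      rw [h]
      exact hc
    · rw [Finset.sum_singleton]
  | zero => exact ⟨∅, fun _ => 0, fun c h => absurd h (Finset.notMem_empty c), fun s => by simp⟩
  | add F G _ _ hF hG =>
    obtain ⟨S, P, h1, h2⟩ := hF
    obtain ⟨S', P', h1', h2'⟩ := hG
    refine ⟨S ∪ S', fun c => (if c ∈ S then P c else 0) + (if c ∈ S' then P' c else 0),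
      fun c h => ?_, fun s => ?_⟩
    · rcases Finset.mem_union.1 h with h | h
      · exact h1 c h
      · exact h1' c h
    · rw [Pi.add_apply, h2, h2']
      have e : ∀ c, gen f ((if c ∈ S then P c else 0) + (if c ∈ S' then P' c else 0)) c s
          = (if c ∈ S then gen f (P c) c s else 0) + (if c ∈ S' then gen f (P' c) c s else 0) := by
        intro c
        rw [gen, applyAt_add]
        congr 1
        · split_ifs
          · rfl
          · exact applyAt_zero _ _
        · split_ifs
          · rfl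
          · exact applyAt_zero _ _
      simp only [e]
      rw [Finset.sum_add_distrib, Finset.sum_ite_mem, Finset.sum_ite_mem,
        Finset.union_inter_cancel_left, Finset.union_inter_cancel_right]
  | smul r F _ hF =>
    obtain ⟨S, P, h1, h2⟩ := hF
    refine ⟨S, fun c => r • P c, h1, fun s => ?_⟩
    rw [Pi.smul_apply, h2, Finset.smul_sum]
    refine Finset.sum_congr rfl fun c _ => ?_
    rw [gen, gen, applyAt_smul]

theorem mem_of_std (f : ι → MvPolynomial σ ℂ) (a : ℤ) (F : AF σ ι) (hF : Std f a F) :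
    F ∈ V f a := by
  classical
  obtain ⟨S, P, h1, h2⟩ := hF
  have : F = ∑ c ∈ S, gen f (P c) c := by
    funext s
    rw [h2, Finset.sum_apply]
  rw [this]
  exact Submodule.sum_mem _ fun c hc => gen_mem f (P c) c (h1 c hc)

theorem functionalEq_iff [DecidableEq ι] (f : ι → MvPolynomial σ ℂ) (b : Polynomial ℂ) :
    IsFunctionalEq f b ↔ mulb b (G0 f) ∈ V f 1 := by
  constructor
  · rintro ⟨S, P, h1, h2⟩
    exact mem_of_std f 1 _ ⟨S, P, h1, h2⟩
  · intro h
    obtain ⟨S, P, h1, h2⟩ := std_of_mem f 1 _ h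
    exact ⟨S, P, h1, h2⟩

theorem mulLeft_memW (q : MvPolynomial σ ℂ) : LinearMap.mulLeft ℂ q ∈ weyl σ := by
  induction q using MvPolynomial.induction_on with
  | C a =>
    have : LinearMap.mulLeft ℂ (C a : MvPolynomial σ ℂ)
        = algebraMap ℂ (Module.End ℂ (MvPolynomial σ ℂ)) a := by
      ext1 p
      refine LinearMap.ext fun q => ?_
      simp [C_mul']
    rw [this]
    exact Subalgebra.algebraMap_mem _ a
  | add p q hp hq =>
    have : LinearMap.mulLeft ℂ (p + q) = LinearMap.mulLeft ℂ p + LinearMap.mulLeft ℂ q := by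
      refine LinearMap.ext fun r => ?_
      rw [LinearMap.add_apply, LinearMap.mulLeft_apply, LinearMap.mulLeft_apply,
        LinearMap.mulLeft_apply, add_mul]
    rw [this]
    exact Subalgebra.add_mem _ hp hq
  | mul_X p i hp =>
    have : LinearMap.mulLeft ℂ (p * X i) = LinearMap.mulLeft ℂ p * LinearMap.mulLeft ℂ (X i) := by
      refine LinearMap.ext fun r => ?_
      rw [Module.End.mul_apply, LinearMap.mulLeft_apply, LinearMap.mulLeft_apply,
        LinearMap.mulLeft_apply, mul_assoc]
    rw [this]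
    exact Subalgebra.mul_mem _ hp (Algebra.subset_adjoin (Or.inl ⟨i, rfl⟩))

/-- composition of all coefficients with a multiplication -/
noncomputable def compR (P : (ι →₀ ℕ) →₀ weyl σ) (R : weyl σ) : (ι →₀ ℕ) →₀ weyl σ :=
  P.mapRange (fun Q => Q * R) (by simp)

theorem applyAt_compR (P : (ι →₀ ℕ) →₀ weyl σ) (R : weyl σ) (s : ι → ℕ)
    (g : MvPolynomial σ ℂ) :
    applyAt (compR P R) s g = applyAt P s ((R : Module.End ℂ (MvPolynomial σ ℂ)) g) := by
  classical
  unfold applyAt compR
  rw [Finsupp.sum_mapRange_index (fun β => by simp)]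
  rfl

theorem V_succ [DecidableEq ι] (f : ι → MvPolynomial σ ℂ) (a : ℤ) (ha : 1 ≤ a) :
    V f (a + 1) ≤ V f a := by
  classical
  refine Submodule.span_le.2 ?_
  rintro F ⟨P, c, hc, rfl⟩
  obtain ⟨j, hj⟩ : ∃ j, 1 ≤ c j := by
    by_contra h
    push Not at h
    have : ∑ j, c j ≤ 0 := Finset.sum_nonpos fun j _ => by have := h j; omega
    omega
  refine Submodule.subset_span ⟨compR P ⟨_, mulLeft_memW (f j)⟩, Function.update c j (c j - 1),
    ?_, ?_⟩
  · rw [Finset.sum_update_of_mem (Finset.mem_univ j)]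
    have := Finset.add_sum_erase Finset.univ c (Finset.mem_univ j)
    rw [Finset.sdiff_singleton_eq_erase]
    omega
  · funext s
    rw [gen, gen, applyAt_compR]
    congr 1
    change _ = f j * gterm f (Function.update c j (c j - 1)) s
    rw [gterm, gterm]
    have e1 : (∏ i, (if Function.update c j (c j - 1) i < 0 then
        (s i).choose (-Function.update c j (c j - 1) i).toNat else 1))
        = ∏ i, (if c i < 0 then (s i).choose (-c i).toNat else 1) := by
      refine Finset.prod_congr rfl fun i _ => ?_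
      by_cases h : i = j
      · subst h
        rw [Function.update_self, if_neg (by omega), if_neg (by omega)]
      · rw [Function.update_of_ne h]
    have e2 : ∏ i, f i ^ ((s i : ℤ) + c i).toNat =
        f j * ∏ i, f i ^ ((s i : ℤ) + Function.update c j (c j - 1) i).toNat := by
      rw [← Finset.mul_prod_erase Finset.univ _ (Finset.mem_univ j),
        ← Finset.mul_prod_erase Finset.univ
          (fun i => f i ^ ((s i : ℤ) + Function.update c j (c j - 1) i).toNat)
          (Finset.mem_univ j), ← mul_assoc, Function.update_self, ← pow_succ']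
      congr 1
      · congr 1
        omega
      · refine Finset.prod_congr rfl fun i hi => ?_
        rw [Function.update_of_ne (Finset.ne_of_mem_erase hi)]
    rw [e1, e2]
    ring

theorem V_le [DecidableEq ι] (f : ι → MvPolynomial σ ℂ) (a : ℤ) (ha : 1 ≤ a) :
    V f a ≤ V f 1 := by
  obtain ⟨n, rfl⟩ : ∃ n : ℕ, a = 1 + n := ⟨(a - 1).toNat, by omega⟩
  clear ha
  induction n with
  | zero => simp
  | succ n ih =>
    refine le_trans ?_ ih
    have := V_succ f (1 + n) (by omega)
    push_cast
    rw [← add_assoc]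
    exact this

end

end Pool.Agent.W574.RO
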